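import Pool.Agent.W627.EqDegD

set_option autoImplicit false

/-! Power series side. -/

namespace Pool.Agent.W627.EqDeg

open MvPolynomial

section

variable {n : ℕ}

/-- A power series of order at least `k` lies in the `k`-th power of the ideal of the variables. -/
theorem mem_pow_of_coeff (p : MvPowerSeries (Fin n) ℂ) (k : ℕ)
    (h : ∀ d : Fin n →₀ ℕ, d.degree < k → MvPowerSeries.coeff d p = 0) :
    p ∈ (Ideal.span (Set.range MvPowerSeries.X) : Ideal (MvPowerSeries (Fin n) ℂ)) ^ k := by
  classical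
  let e := MvPowerSeries.toAdicCompletionAlgEquiv (Fin n) ℂ
  have h1 : e p ∈ (idealOfVars (Fin n) ℂ ^ k • ⊤ : Submodule (MvPolynomial (Fin n) ℂ)
      (AdicCompletion (idealOfVars (Fin n) ℂ) (MvPolynomial (Fin n) ℂ))) := by
    rw [AdicCompletion.pow_smul_top_eq_ker_eval (idealOfVars_fg (Fin n) ℂ), LinearMap.mem_ker]
    change (MvPowerSeries.toAdicCompletion (Fin n) ℂ p).val k = 0
    rw [MvPowerSeries.toAdicCompletion_apply_eq_mk_truncTotal]
    have h2 : MvPowerSeries.truncTotal k p = 0 := by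
      ext d
      rw [MvPowerSeries.coeff_truncTotal_eq_ite, coeff_zero]
      split_ifs with hd
      · exact h d hd
      · rfl
    rw [h2]
    exact map_zero (Ideal.Quotient.mk _)
  have key : ∀ x : AdicCompletion (idealOfVars (Fin n) ℂ) (MvPolynomial (Fin n) ℂ),
      x ∈ (idealOfVars (Fin n) ℂ ^ k • ⊤ : Submodule (MvPolynomial (Fin n) ℂ)
      (AdicCompletion (idealOfVars (Fin n) ℂ) (MvPolynomial (Fin n) ℂ))) →
      e.symm x ∈ (Ideal.span (Set.range MvPowerSeries.X) :
        Ideal (MvPowerSeries (Fin n) ℂ)) ^ k := by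
    intro x hx
    refine Submodule.smul_induction_on hx ?_ ?_
    · intro r hr y _
      rw [map_smul, Algebra.smul_def]
      refine Ideal.mul_mem_right _ _ ?_
      have h3 : Ideal.map (algebraMap (MvPolynomial (Fin n) ℂ) (MvPowerSeries (Fin n) ℂ))
          (idealOfVars (Fin n) ℂ ^ k) ≤
          (Ideal.span (Set.range MvPowerSeries.X) : Ideal (MvPowerSeries (Fin n) ℂ)) ^ k := by
        rw [Ideal.map_pow]
        refine Ideal.pow_right_mono ?_ k
        rw [Ideal.map_span, Ideal.span_le]
        rintro _ ⟨_, ⟨i, rfl⟩, rfl⟩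
        refine Ideal.subset_span ⟨i, ?_⟩
        exact (MvPolynomial.coe_X i).symm
      exact h3 (Ideal.mem_map_of_mem _ hr)
    · intro x y hx hy
      rw [map_add]
      exact Ideal.add_mem _ hx hy
  have := key _ h1
  rwa [e.symm_apply_apply] at this

variable (f : Fin n → MvPolynomial (Fin n) ℂ)

/-- The ideal generated by `f` in the ring of power series. -/
noncomputable abbrev II : Ideal (MvPowerSeries (Fin n) ℂ) :=
  Ideal.span (Set.range (fun i : Fin n => (f i : MvPowerSeries (Fin n) ℂ)))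

theorem exists_order [Module.Finite ℂ (MvPowerSeries (Fin n) ℂ ⧸ II f)] :
    ∃ M0 : ℕ, ∀ p : MvPowerSeries (Fin n) ℂ,
      (∀ d : Fin n →₀ ℕ, d.degree < M0 → MvPowerSeries.coeff d p = 0) → p ∈ II f := by
  have hart : IsArtinianRing (MvPowerSeries (Fin n) ℂ ⧸ II f) :=
    IsArtinianRing.of_finite ℂ _
  obtain ⟨k, hk⟩ := IsArtinianRing.isNilpotent_jacobson_bot (R := MvPowerSeries (Fin n) ℂ ⧸ II f)
  refine ⟨k, fun p hp => ?_⟩
  have h1 := mem_pow_of_coeff p k hp
  have h2 : (Ideal.span (Set.range MvPowerSeries.X) : Ideal (MvPowerSeries (Fin n) ℂ)).map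
      (Ideal.Quotient.mk (II f)) ≤ (⊥ : Ideal (MvPowerSeries (Fin n) ℂ ⧸ II f)).jacobson := by
    rw [Ideal.map_span, Ideal.span_le]
    rintro _ ⟨_, ⟨i, rfl⟩, rfl⟩
    rw [SetLike.mem_coe, Ideal.mem_jacobson_bot]
    intro y
    obtain ⟨w, rfl⟩ := Ideal.Quotient.mk_surjective y
    rw [← map_mul, ← map_one (Ideal.Quotient.mk (II f)), ← map_add]
    apply IsUnit.map
    rw [MvPowerSeries.isUnit_iff_constantCoeff]
    simp
  have h3 : Ideal.Quotient.mk (II f) p ∈
      ((Ideal.span (Set.range MvPowerSeries.X) : Ideal (MvPowerSeries (Fin n) ℂ)).map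
      (Ideal.Quotient.mk (II f))) ^ k := by
    rw [← Ideal.map_pow]
    exact Ideal.mem_map_of_mem _ h1
  have h4 := Ideal.pow_right_mono h2 k h3
  rw [hk] at h4
  exact Ideal.Quotient.eq_zero_iff_mem.1 h4

theorem coe_mem_iff {M0 : ℕ} (hM0 : ∀ p : MvPowerSeries (Fin n) ℂ,
      (∀ d : Fin n →₀ ℕ, d.degree < M0 → MvPowerSeries.coeff d p = 0) → p ∈ II f)
    {k : ℕ} (hk : M0 ≤ k) (p : MvPolynomial (Fin n) ℂ) :
    (p : MvPowerSeries (Fin n) ℂ) ∈ II f ↔
      p ∈ Ideal.span (Set.range f) ⊔ idealOfVars (Fin n) ℂ ^ k := by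
  classical
  constructor
  · intro hp
    obtain ⟨a, ha⟩ := (Ideal.mem_span_range_iff_exists_fun).1 hp
    have h1 : p = ∑ j, MvPowerSeries.truncTotal k (a j) * f j +
        (p - ∑ j, MvPowerSeries.truncTotal k (a j) * f j) := by ring
    rw [h1]
    refine Submodule.add_mem_sup ?_ ?_
    · exact Ideal.sum_mem _ fun j _ => Ideal.mul_mem_left _ _ (Ideal.subset_span ⟨j, rfl⟩)
    · rw [mem_pow_idealOfVars_iff']
      intro d hd
      rw [coeff_sub, coeff_sum, ← MvPolynomial.coeff_coe, ← ha, map_sum, sub_eq_zero]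
      refine Finset.sum_congr rfl fun j _ => ?_
      rw [MvPowerSeries.coeff_mul, coeff_mul]
      refine Finset.sum_congr rfl fun x hx => ?_
      rw [Finset.HasAntidiagonal.mem_antidiagonal] at hx
      have hx1 : x.1.degree < k := by
        have : d.degree = x.1.degree + x.2.degree := by rw [← hx, map_add]
        omega
      rw [MvPowerSeries.coeff_truncTotal _ hx1, MvPolynomial.coeff_coe]
  · intro hp
    obtain ⟨a, ha, b, hb, rfl⟩ := Submodule.mem_sup.1 hp
    rw [MvPolynomial.coe_add]
    refine Ideal.add_mem _ ?_ ?_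
    · obtain ⟨c, rfl⟩ := (Ideal.mem_span_range_iff_exists_fun).1 ha
      have : ((∑ i, c i * f i : MvPolynomial (Fin n) ℂ) : MvPowerSeries (Fin n) ℂ) =
          ∑ i, (c i : MvPowerSeries (Fin n) ℂ) * (f i : MvPowerSeries (Fin n) ℂ) := by
        change MvPolynomial.coeToMvPowerSeries.ringHom (∑ i, c i * f i) = _
        rw [map_sum]
        refine Finset.sum_congr rfl fun i _ => ?_
        rw [map_mul]
        rfl
      rw [this]
      exact Ideal.sum_mem _ fun j _ => Ideal.mul_mem_left _ _ (Ideal.subset_span ⟨j, rfl⟩)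
    · apply hM0
      intro d hd
      rw [MvPolynomial.coeff_coe]
      exact (mem_pow_idealOfVars_iff' k b).1 hb d (by omega)

/-- invertible linear change of generators -/
theorem span_change {A : Type*} [CommRing A] [Algebra ℂ A] (W P : Matrix (Fin n) (Fin n) ℂ)
    (hPW : P * W = 1) (u : Fin n → A) :
    Ideal.span (Set.range (fun i => ∑ j, W i j • u j)) = Ideal.span (Set.range u) := by
  classical
  apply le_antisymm
  · rw [Ideal.span_le]
    rintro _ ⟨i, rfl⟩
    exact Ideal.sum_mem _ fun j _ =>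
      Submodule.smul_of_tower_mem _ _ (Ideal.subset_span ⟨j, rfl⟩)
  · rw [Ideal.span_le]
    rintro _ ⟨i, rfl⟩
    have h1 : u i = ∑ k, P i k • (∑ j, W k j • u j) := by
      simp only [Finset.smul_sum, smul_smul]
      rw [Finset.sum_comm]
      have h2 : ∀ j, ∑ k, (P i k * W k j) • u j = (if i = j then (1 : ℂ) else 0) • u j := by
        intro j
        rw [← Finset.sum_smul]
        congr 1
        have := congrFun (congrFun hPW i) j
        rwa [Matrix.mul_apply, Matrix.one_apply] at this
      rw [Finset.sum_congr rfl fun j _ => h2 j]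
      simp
    rw [h1]
    exact Ideal.sum_mem _ fun j _ =>
      Submodule.smul_of_tower_mem _ _ (Ideal.subset_span ⟨j, rfl⟩)

end

section final

variable {n : ℕ}

/-- linear substitution -/
noncomputable def lin (W : Matrix (Fin n) (Fin n) ℂ) :
    MvPolynomial (Fin n) ℂ →ₐ[ℂ] MvPolynomial (Fin n) ℂ :=
  aeval (fun i => ∑ j, W i j • (X j : MvPolynomial (Fin n) ℂ))

theorem lin_X (W : Matrix (Fin n) (Fin n) ℂ) (i : Fin n) :
    lin W (X i) = ∑ j, W i j • X j := by rw [lin, aeval_X]

theorem lin_lin (W P : Matrix (Fin n) (Fin n) ℂ) (p : MvPolynomial (Fin n) ℂ) :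
    lin W (lin P p) = lin (P * W) p := by
  have : (lin W).comp (lin P) = lin (P * W) := by
    apply MvPolynomial.algHom_ext
    intro i
    rw [AlgHom.comp_apply, lin_X, lin_X, map_sum]
    simp only [map_smul, lin_X, Finset.smul_sum, smul_smul]
    rw [Finset.sum_comm]
    refine Finset.sum_congr rfl fun j _ => ?_
    rw [← Finset.sum_smul, Matrix.mul_apply]
  exact DFunLike.congr_fun this p

theorem lin_one (p : MvPolynomial (Fin n) ℂ) : lin (1 : Matrix (Fin n) (Fin n) ℂ) p = p := by
  classical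
  have : lin (1 : Matrix (Fin n) (Fin n) ℂ) = AlgHom.id ℂ _ := by
    apply MvPolynomial.algHom_ext
    intro i
    rw [lin_X]
    simp [Matrix.one_apply]
  rw [this]
  rfl

theorem scal_eq_lin (l : Fin n → ℂ) : scal l = lin (Matrix.diagonal l) := by
  classical
  apply MvPolynomial.algHom_ext
  intro i
  rw [scal_X, lin_X, Finset.sum_eq_single i]
  · rw [Matrix.diagonal_apply_eq]
  · intro j _ hj
    rw [Matrix.diagonal_apply_ne _ hj.symm, zero_smul]
  · intro h
    exact absurd (Finset.mem_univ i) h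

theorem main (m : ℕ) (hm : m ≠ 0) (M : Matrix (Fin n) (Fin n) ℂ) (hM : M ^ m = 1)
    (f : Fin n → MvPolynomial (Fin n) ℂ)
    (heq : ∀ i : Fin n, lin M (f i) = ∑ j : Fin n, M i j • f j)
    (hfin : Module.Finite ℂ (MvPowerSeries (Fin n) ℂ ⧸ II f))
    (T : (MvPowerSeries (Fin n) ℂ ⧸ II f) →ₐ[ℂ] (MvPowerSeries (Fin n) ℂ ⧸ II f))
    (hT : ∀ i : Fin n, T (Ideal.Quotient.mk (II f) (MvPowerSeries.X i)) =
      Ideal.Quotient.mk (II f)
        (∑ j : Fin n, M i j • (MvPowerSeries.X j : MvPowerSeries (Fin n) ℂ))) :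
    LinearMap.trace ℂ (MvPowerSeries (Fin n) ℂ ⧸ II f) T.toLinearMap
      = ((Module.finrank ℂ
          (MvPowerSeries (Fin n) ℂ ⧸
            Ideal.span (Set.range (fun i : Fin n => (f i : MvPowerSeries (Fin n) ℂ)) ∪
              Set.range (fun i : Fin n =>
                ∑ j : Fin n, (M - 1) i j • (MvPowerSeries.X j : MvPowerSeries (Fin n) ℂ)))))
          : ℂ) := by
  classical
  obtain ⟨W, P, l, hWP, hPW, hWM, hl⟩ := exists_diag M hm hM
  obtain ⟨M0, hM0⟩ := exists_order f
  -- the coercion as an algebra morphism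
  let co : MvPolynomial (Fin n) ℂ →ₐ[ℂ] MvPowerSeries (Fin n) ℂ :=
    { MvPolynomial.coeToMvPowerSeries.ringHom with
      commutes' := fun c => MvPolynomial.coe_C c }
  have hco : ∀ p, co p = (p : MvPowerSeries (Fin n) ℂ) := fun p => rfl
  let π : MvPolynomial (Fin n) ℂ →ₐ[ℂ] (MvPowerSeries (Fin n) ℂ ⧸ II f) :=
    (Ideal.Quotient.mkₐ ℂ (II f)).comp (co.comp (lin W))
  have hπ : ∀ p, π p = Ideal.Quotient.mk (II f) (lin W p : MvPowerSeries (Fin n) ℂ) := fun p => rfl
  have hWPp : ∀ p, lin W (lin P p) = p := fun p => by rw [lin_lin, hPW, lin_one]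
  have hPWp : ∀ p, lin P (lin W p) = p := fun p => by rw [lin_lin, hWP, lin_one]
  have hsurj0 : ∀ a : MvPowerSeries (Fin n) ℂ, ∃ p, π p = Ideal.Quotient.mk (II f) a := by
    intro a
    refine ⟨lin P (MvPowerSeries.truncTotal M0 a), ?_⟩
    rw [hπ, hWPp, Ideal.Quotient.eq]
    apply hM0
    intro d hd
    rw [map_sub, MvPolynomial.coeff_coe, MvPowerSeries.coeff_truncTotal _ hd, sub_self]
  have hsurj : Function.Surjective π := by
    intro x
    obtain ⟨a, rfl⟩ := Ideal.Quotient.mk_surjective x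
    exact hsurj0 a
  let f' : Fin n → MvPolynomial (Fin n) ℂ := fun i => lin P (∑ j, W i j • f j)
  -- equivariance of `f'`
  have hcomm : ∀ p, scal l (lin P p) = lin P (lin M p) := by
    intro p
    have hPD : P * Matrix.diagonal l = M * P := by
      calc P * Matrix.diagonal l = P * Matrix.diagonal l * (W * P) := by rw [hWP, mul_one]
        _ = P * (Matrix.diagonal l * W) * P := by simp only [mul_assoc]
        _ = P * (W * M) * P := by rw [hWM]
        _ = (P * W) * M * P := by simp only [mul_assoc]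
        _ = M * P := by rw [hPW, one_mul]
    rw [scal_eq_lin, lin_lin, lin_lin, hPD]
  have hf' : ∀ i, scal l (f' i) = l i • f' i := by
    intro i
    change scal l (lin P (∑ j, W i j • f j)) = l i • lin P (∑ j, W i j • f j)
    rw [hcomm, ← map_smul]
    congr 1
    rw [map_sum]
    simp only [map_smul, heq, Finset.smul_sum, smul_smul]
    rw [Finset.sum_comm]
    refine Finset.sum_congr rfl fun j _ => ?_
    rw [← Finset.sum_smul]
    congr 1
    have h1 := congrFun (congrFun hWM i) j
    rw [Matrix.diagonal_mul, Matrix.mul_apply] at h1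
    exact h1
  -- the kernel
  let J : Ideal (MvPolynomial (Fin n) ℂ) := RingHom.ker π
  have hmemJ : ∀ p, p ∈ J ↔ (lin W p : MvPowerSeries (Fin n) ℂ) ∈ II f := by
    intro p
    change π p = 0 ↔ _
    rw [hπ, Ideal.Quotient.eq_zero_iff_mem]
  have hJ : ∀ k, M0 ≤ k → J = Ideal.span (Set.range f') ⊔ (idealOfVars (Fin n) ℂ) ^ k := by
    intro k hk
    have hmapP : Ideal.map (lin P) (Ideal.span (Set.range f)) = Ideal.span (Set.range f') := by
      rw [Ideal.map_span, ← Set.range_comp]
      have h1 := span_change W P hPW (fun i => lin P (f i))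
      have h2 : (fun i => ∑ j, W i j • lin P (f j)) = f' := by
        funext i
        change _ = lin P (∑ j, W i j • f j)
        rw [map_sum]
        simp only [map_smul]
      rw [h2] at h1
      exact h1.symm
    have hmapPm : Ideal.map (lin P) (idealOfVars (Fin n) ℂ) = idealOfVars (Fin n) ℂ := by
      rw [idealOfVars, Ideal.map_span, ← Set.range_comp]
      have h1 := span_change P W hWP (fun i => (X i : MvPolynomial (Fin n) ℂ))
      have h2 : (fun i => ∑ j, P i j • (X j : MvPolynomial (Fin n) ℂ)) = (lin P) ∘ X := by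
        funext i
        rw [Function.comp_apply, lin_X]
      rw [h2] at h1
      exact h1
    have hmapW : Ideal.map (lin W) (Ideal.span (Set.range f')) ≤ Ideal.span (Set.range f) := by
      rw [Ideal.map_span, Ideal.span_le]
      rintro _ ⟨_, ⟨i, rfl⟩, rfl⟩
      change lin W (lin P (∑ j, W i j • f j)) ∈ Ideal.span (Set.range f)
      rw [hWPp]
      exact Ideal.sum_mem _ fun j _ =>
        Submodule.smul_of_tower_mem _ _ (Ideal.subset_span ⟨j, rfl⟩)
    have hmapWm : Ideal.map (lin W) (idealOfVars (Fin n) ℂ) ≤ idealOfVars (Fin n) ℂ := by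
      rw [idealOfVars, Ideal.map_span, Ideal.span_le]
      rintro _ ⟨_, ⟨i, rfl⟩, rfl⟩
      change lin W (X i) ∈ _
      rw [lin_X]
      exact Ideal.sum_mem _ fun j _ =>
        Submodule.smul_of_tower_mem _ _ (Ideal.subset_span ⟨j, rfl⟩)
    ext p
    rw [hmemJ, coe_mem_iff f hM0 hk]
    constructor
    · intro hp
      obtain ⟨a, ha, b, hb, hab⟩ := Submodule.mem_sup.1 hp
      rw [← hPWp p, ← hab, map_add]
      refine Submodule.add_mem_sup ?_ ?_
      · rw [← hmapP]
        exact Ideal.mem_map_of_mem _ ha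
      · rw [← hmapPm, ← Ideal.map_pow]
        exact Ideal.mem_map_of_mem _ hb
    · intro hp
      obtain ⟨a, ha, b, hb, rfl⟩ := Submodule.mem_sup.1 hp
      rw [map_add]
      refine Submodule.add_mem_sup (hmapW (Ideal.mem_map_of_mem _ ha)) ?_
      refine Ideal.pow_right_mono hmapWm k ?_
      rw [← Ideal.map_pow]
      exact Ideal.mem_map_of_mem _ hb
  -- compatibility of `T`
  have hTπ : ∀ p, T.toLinearMap (π p) = π (scal l p) := by
    intro p
    have h1 : T.comp π = π.comp (scal l) := by
      apply MvPolynomial.algHom_ext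
      intro i
      change T (π (X i)) = π (scal l (X i))
      rw [scal_X, map_smul]
      have h2 : ∀ k, π (X k) = Ideal.Quotient.mk (II f)
          (∑ j, W k j • (MvPowerSeries.X j : MvPowerSeries (Fin n) ℂ)) := by
        intro k
        rw [hπ, lin_X, ← hco, map_sum]
        congr 1
        refine Finset.sum_congr rfl fun j _ => ?_
        rw [map_smul, hco, MvPolynomial.coe_X]
      have h3 : ∀ (c : Fin n → ℂ), T (Ideal.Quotient.mk (II f)
          (∑ j, c j • (MvPowerSeries.X j : MvPowerSeries (Fin n) ℂ))) =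
          Ideal.Quotient.mk (II f) (∑ j, c j • ∑ k, M j k •
            (MvPowerSeries.X k : MvPowerSeries (Fin n) ℂ)) := by
        intro c
        change T (Ideal.Quotient.mkₐ ℂ (II f) _) = Ideal.Quotient.mkₐ ℂ (II f) _
        rw [map_sum, map_sum, map_sum]
        refine Finset.sum_congr rfl fun j _ => ?_
        rw [map_smul, map_smul, map_smul]
        congr 1
        exact hT j
      rw [h2, h3]
      change _ = l i • (Ideal.Quotient.mkₐ ℂ (II f)) _
      rw [← map_smul]
      change _ = Ideal.Quotient.mk (II f) _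
      congr 1
      simp only [Finset.smul_sum, smul_smul]
      rw [Finset.sum_comm]
      refine Finset.sum_congr rfl fun j _ => ?_
      rw [← Finset.sum_smul]
      congr 1
      have h4 := congrFun (congrFun hWM i) j
      rw [Matrix.diagonal_mul, Matrix.mul_apply] at h4
      exact h4
    exact DFunLike.congr_fun h1 p
  have hlocal := local_trace hm hl f' hf' M0 J hJ π hsurj (fun p => Iff.rfl) T.toLinearMap hTπ
  rw [hlocal]
  congr 1
  -- comparison of the two quotients
  set K' := Ideal.span (Set.range (fun i : Fin n => (f i : MvPowerSeries (Fin n) ℂ)) ∪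
              Set.range (fun i : Fin n =>
                ∑ j : Fin n, (M - 1) i j • (MvPowerSeries.X j : MvPowerSeries (Fin n) ℂ))) with hK'
  set L := Ideal.span (Set.range (fun i : Fin n =>
                ∑ j : Fin n, (M - 1) i j • (MvPowerSeries.X j : MvPowerSeries (Fin n) ℂ))) with hL
  have hK'2 : K' = II f ⊔ L := by rw [hK', Ideal.span_union]
  let z : Fin n → MvPowerSeries (Fin n) ℂ := fun i => co (lin W (X i))
  have hz : ∀ i, z i = ∑ j, W i j • (MvPowerSeries.X j : MvPowerSeries (Fin n) ℂ) := by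
    intro i
    change co (lin W (X i)) = _
    rw [lin_X, map_sum]
    refine Finset.sum_congr rfl fun j _ => ?_
    rw [map_smul, hco, MvPolynomial.coe_X]
  have hL2 : L = Ideal.span (Set.range (fun i => (l i - 1) • z i)) := by
    rw [hL, ← span_change W P hPW]
    congr 2
    funext i
    rw [hz]
    simp only [Finset.smul_sum, smul_smul]
    rw [Finset.sum_comm]
    refine Finset.sum_congr rfl fun j _ => ?_
    rw [← Finset.sum_smul]
    congr 1
    have h4 := congrFun (congrFun hWM i) j
    rw [Matrix.diagonal_mul, Matrix.mul_apply] at h4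
    have h5 : ∑ k, W i k * (M - 1) k j = ∑ k, W i k * M k j - W i j := by
      simp only [Matrix.sub_apply, mul_sub, Finset.sum_sub_distrib, Matrix.one_apply]
      simp
    rw [h5, h4]
    ring
  have hL3 : L = Ideal.map (co.comp (lin W)) (Iy l) := by
    rw [hL2, Iy, Ideal.map_span]
    apply le_antisymm
    · rw [Ideal.span_le]
      rintro _ ⟨i, rfl⟩
      change (l i - 1) • z i ∈ _
      by_cases hi : l i = 1
      · rw [hi, sub_self, zero_smul]
        exact Ideal.zero_mem _
      · exact Submodule.smul_of_tower_mem _ _ (Ideal.subset_span ⟨X i, ⟨i, hi, rfl⟩, rfl⟩)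
    · rw [Ideal.span_le]
      rintro _ ⟨_, ⟨i, hi, rfl⟩, rfl⟩
      change z i ∈ _
      have hi' : l i - 1 ≠ 0 := sub_ne_zero.2 hi
      have h1 : z i = (l i - 1)⁻¹ • ((l i - 1) • z i) := by
        rw [smul_smul, inv_mul_cancel₀ hi', one_smul]
      rw [h1]
      exact Submodule.smul_of_tower_mem _ _ (Ideal.subset_span ⟨i, rfl⟩)
  let π' : MvPolynomial (Fin n) ℂ →ₐ[ℂ] (MvPowerSeries (Fin n) ℂ ⧸ K') :=
    (Ideal.Quotient.mkₐ ℂ K').comp (co.comp (lin W))
  have hIK : II f ≤ K' := by rw [hK'2]; exact le_sup_left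
  have hsurj' : Function.Surjective π' := by
    intro x
    obtain ⟨a, rfl⟩ := Ideal.Quotient.mk_surjective x
    obtain ⟨p, hp⟩ := hsurj0 a
    refine ⟨p, ?_⟩
    rw [hπ, Ideal.Quotient.eq] at hp
    change Ideal.Quotient.mk K' _ = Ideal.Quotient.mk K' a
    rw [Ideal.Quotient.eq]
    exact hIK hp
  have hker' : RingHom.ker π' = J ⊔ Iy l := by
    ext p
    rw [RingHom.mem_ker]
    change Ideal.Quotient.mk K' ((lin W p : MvPowerSeries (Fin n) ℂ)) = 0 ↔ _
    rw [Ideal.Quotient.eq_zero_iff_mem, hK'2]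
    constructor
    · intro hp
      have h1 : π p ∈ Ideal.map π (Iy l) := by
        have h2 : Ideal.map π (Iy l) = Ideal.map (Ideal.Quotient.mk (II f)) L := by
          rw [hL3, Iy, Ideal.map_span, Ideal.map_span, Ideal.map_span]
          simp only [Set.image_image]
          rfl
        rw [h2, hπ]
        obtain ⟨a, ha, b, hb, hab⟩ := Submodule.mem_sup.1 hp
        rw [← hab, map_add, Ideal.Quotient.eq_zero_iff_mem.2 ha, zero_add]
        exact Ideal.mem_map_of_mem _ hb
      rw [Ideal.mem_map_iff_of_surjective _ hsurj] at h1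
      obtain ⟨q, hq, hqp⟩ := h1
      have h3 : p = (p - q) + q := by ring
      rw [h3]
      refine Submodule.add_mem_sup ?_ hq
      change π (p - q) = 0
      rw [map_sub, hqp, sub_self]
    · intro hp
      obtain ⟨a, ha, b, hb, rfl⟩ := Submodule.mem_sup.1 hp
      rw [map_add, MvPolynomial.coe_add]
      refine Submodule.add_mem_sup ((hmemJ a).1 ha) ?_
      rw [hL3]
      exact Ideal.mem_map_of_mem (co.comp (lin W)) hb
  have e := (Ideal.quotientKerAlgEquivOfSurjective hsurj').toLinearEquiv.finrank_eq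
  rw [← e]
  exact congrArg (fun I : Ideal (MvPolynomial (Fin n) ℂ) =>
    Module.finrank ℂ (MvPolynomial (Fin n) ℂ ⧸ I)) hker'.symm

end final

end Pool.Agent.W627.EqDeg
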