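import Mathlib

set_option autoImplicit false

/-! Abstract trace lemmas for the equivariant local degree. -/

namespace Pool.Agent.W627.EqDeg

section

variable {K D : Type*} [Field K] [CommRing D] [Algebra K D] [Module.Finite K D]

/-- The cyclic trick: if `g y = l y` with `l ≠ 1` then `d ↦ h * g (a * y * d)` has trace zero. -/
theorem trace_mul_eq_zero (h a y : D) (g : D →ₐ[K] D) (l : K) (hl : l ≠ 1) (hy : g y = l • y) :
    LinearMap.trace K D (LinearMap.mulLeft K h ∘ₗ g.toLinearMap ∘ₗ LinearMap.mulLeft K (a * y))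
      = 0 := by
  set B : D →ₗ[K] D := LinearMap.mulLeft K h ∘ₗ g.toLinearMap ∘ₗ LinearMap.mulLeft K a with hB
  have h1 : LinearMap.mulLeft K h ∘ₗ g.toLinearMap ∘ₗ LinearMap.mulLeft K (a * y)
      = B ∘ₗ LinearMap.mulLeft K y := by
    ext d
    simp [hB]
  have h2 : LinearMap.mulLeft K h ∘ₗ g.toLinearMap ∘ₗ LinearMap.mulLeft K (a * y)
      = l • (LinearMap.mulLeft K y ∘ₗ B) := by
    ext d
    simp [hB, hy, mul_left_comm]
  have h3 : LinearMap.trace K D (B ∘ₗ LinearMap.mulLeft K y)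
      = l * LinearMap.trace K D (B ∘ₗ LinearMap.mulLeft K y) := by
    conv_lhs => rw [← h1, h2]
    rw [map_smul, smul_eq_mul, LinearMap.trace_comp_comm']
  rw [h1]
  have h4 : (1 - l) * LinearMap.trace K D (B ∘ₗ LinearMap.mulLeft K y) = 0 := by
    rw [sub_mul, one_mul, ← h3, sub_self]
  rcases mul_eq_zero.1 h4 with h5 | h5
  · exact absurd (sub_eq_zero.1 h5).symm hl
  · exact h5

/-- Trace through a retract. -/
theorem trace_retract {D Q : Type*} [AddCommGroup D] [Module K D] [Module.Finite K D]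
    [AddCommGroup Q] [Module K Q] [Module.Finite K Q]
    (q : D →ₗ[K] Q) (hq : Function.Surjective q) (P : D →ₗ[K] D)
    (hker : ∀ d, q d = 0 → P d = 0) (hqP : ∀ d, q (P d) = q d)
    (G : D →ₗ[K] D) (T : Q →ₗ[K] Q) (hT : ∀ d, T (q d) = q (G d)) :
    LinearMap.trace K D (P ∘ₗ G) = LinearMap.trace K Q T := by
  obtain ⟨r, hr⟩ := q.exists_rightInverse_of_surjective (LinearMap.range_eq_top.2 hq)
  have hr' : ∀ x, q (r x) = x := fun x => by
    have := LinearMap.congr_fun hr x
    simpa using this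
  have hs : (P ∘ₗ r) ∘ₗ q = P := by
    ext d
    have h1 : q (r (q d) - d) = 0 := by rw [map_sub, hr', sub_self]
    have h2 := hker _ h1
    rw [map_sub, sub_eq_zero] at h2
    simpa using h2
  have h1 : P ∘ₗ G = (P ∘ₗ r) ∘ₗ (q ∘ₗ G) := by
    rw [← LinearMap.comp_assoc, hs]
  have h2 : (q ∘ₗ G) ∘ₗ (P ∘ₗ r) = T := by
    ext x
    simp only [LinearMap.comp_apply]
    rw [← hT, hqP, hr']
  rw [h1, LinearMap.trace_comp_comm', h2]

/-- If `J` is an idempotent ideal generated by eigenvectors with eigenvalues `≠ 1` and `g` is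
trivial modulo `J`, then the trace of `h g` on `D` is the trace of `h` on `D / J`. -/
theorem trace_eq_trace_quot (h : D) (g : D →ₐ[K] D) {ι : Type*} [Fintype ι] (y : ι → D) (l : ι → K)
    (hl : ∀ i, l i ≠ 1) (hy : ∀ i, g (y i) = l i • y i) (J : Ideal D)
    (hJ : J = Ideal.span (Set.range y)) (hJ2 : J ≤ J * J) (hg : ∀ d, g d - d ∈ J)
    {Q : Type*} [AddCommGroup Q] [Module K Q] [Module.Finite K Q]
    (q : D →ₗ[K] Q) (hq : Function.Surjective q) (hqJ : ∀ d, q d = 0 ↔ d ∈ J)
    (T : Q →ₗ[K] Q) (hT : ∀ d, T (q d) = q (h * d)) :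
    LinearMap.trace K D (LinearMap.mulLeft K h ∘ₗ g.toLinearMap) = LinearMap.trace K Q T := by
  have hfg : J.FG := by
    rw [hJ]
    exact Submodule.fg_span (Set.finite_range y)
  have hid : IsIdempotentElem J := le_antisymm Ideal.mul_le_right hJ2
  obtain ⟨e, he, heJ⟩ := (Ideal.isIdempotentElem_iff_of_fg J hfg).1 hid
  have heJ' : e ∈ J := by rw [heJ]; exact Ideal.subset_span rfl
  have hmul : ∀ d ∈ J, e * d = d := by
    intro d hd
    rw [heJ, Submodule.mem_span_singleton] at hd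
    obtain ⟨c, rfl⟩ := hd
    rw [smul_eq_mul, mul_left_comm, he.eq]
  obtain ⟨a, ha⟩ : ∃ a : ι → D, ∑ i, a i * y i = e := by
    have := heJ'
    rw [hJ] at this
    obtain ⟨a, ha⟩ := (Ideal.mem_span_range_iff_exists_fun).1 this
    exact ⟨a, ha⟩
  have hsplit : LinearMap.mulLeft K h ∘ₗ g.toLinearMap =
      (∑ i, LinearMap.mulLeft K h ∘ₗ g.toLinearMap ∘ₗ LinearMap.mulLeft K (a i * y i)) +
        (LinearMap.mulLeft K h ∘ₗ g.toLinearMap) ∘ₗ LinearMap.mulLeft K (1 - e) := by
    ext d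
    simp only [LinearMap.comp_apply, LinearMap.add_apply, LinearMap.sum_apply,
      LinearMap.mulLeft_apply, AlgHom.toLinearMap_apply]
    rw [← Finset.mul_sum, ← map_sum, ← Finset.sum_mul, ha, ← mul_add, ← map_add, ← add_mul]
    simp
  rw [hsplit, map_add, map_sum,
    Finset.sum_eq_zero (fun i _ => trace_mul_eq_zero h (a i) (y i) g (l i) (hl i) (hy i)), zero_add]
  rw [LinearMap.trace_comp_comm']
  refine trace_retract q hq (LinearMap.mulLeft K (1 - e)) ?_ ?_ _ _ ?_
  · intro d hd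
    have hd' : d ∈ J := (hqJ d).1 hd
    simp [sub_mul, hmul d hd']
  · intro d
    rw [← sub_eq_zero, ← map_sub, hqJ]
    have : (LinearMap.mulLeft K (1 - e)) d - d = -(d * e) := by
      rw [LinearMap.mulLeft_apply]; ring
    rw [this]
    exact J.neg_mem (J.mul_mem_left _ heJ')
  · intro d
    rw [hT, ← sub_eq_zero, ← map_sub, hqJ]
    have : h * d - (LinearMap.mulLeft K h ∘ₗ g.toLinearMap) d = -(h * (g d - d)) := by
      simp only [LinearMap.comp_apply, LinearMap.mulLeft_apply, AlgHom.toLinearMap_apply]; ring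
    rw [this]
    exact J.neg_mem (J.mul_mem_left _ (hg d))

end

end Pool.Agent.W627.EqDeg
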