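import Mathlib

set_option autoImplicit false

/-! `R[x]/(F)` is free on the box monomials when `F i = X i ^ N + lower degree`. -/

namespace Pool.Agent.W627.EqDeg

open MvPolynomial

section

variable {R : Type*} [CommRing R] {n : ℕ}

/-- All monomials of `p` have degree `< k`. -/
def Low (k : ℕ) (p : MvPolynomial (Fin n) R) : Prop :=
  ∀ d : Fin n →₀ ℕ, k ≤ d.degree → coeff d p = 0

theorem Low.add {k : ℕ} {p q : MvPolynomial (Fin n) R} (hp : Low k p) (hq : Low k q) :
    Low k (p + q) := fun d hd => by rw [coeff_add, hp d hd, hq d hd, add_zero]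

theorem Low.sub {k : ℕ} {p q : MvPolynomial (Fin n) R} (hp : Low k p) (hq : Low k q) :
    Low k (p - q) := fun d hd => by rw [coeff_sub, hp d hd, hq d hd, sub_zero]

theorem Low.zero {k : ℕ} : Low k (0 : MvPolynomial (Fin n) R) := fun d _ => by simp

theorem Low.smul {k : ℕ} {p : MvPolynomial (Fin n) R} (hp : Low k p) (c : R) : Low k (c • p) :=
  fun d hd => by rw [coeff_smul, hp d hd, smul_zero]

theorem Low.mono {k l : ℕ} (h : k ≤ l) {p : MvPolynomial (Fin n) R} (hp : Low k p) : Low l p :=
  fun d hd => hp d (h.trans hd)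

theorem Low.sum {k : ℕ} {ι : Type*} (s : Finset ι) (p : ι → MvPolynomial (Fin n) R)
    (hp : ∀ i ∈ s, Low k (p i)) : Low k (∑ i ∈ s, p i) := fun d hd => by
  rw [coeff_sum]
  exact Finset.sum_eq_zero fun i hi => hp i hi d hd

theorem Low.mul {k l : ℕ} {p q : MvPolynomial (Fin n) R} (hp : Low k p) (hq : Low (l + 1) q) :
    Low (k + l) (p * q) := fun d hd => by
  classical
  rw [coeff_mul]
  refine Finset.sum_eq_zero fun x hx => ?_
  rw [Finset.HasAntidiagonal.mem_antidiagonal] at hx
  rcases le_or_gt k x.1.degree with h | h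
  · rw [hp _ h, zero_mul]
  · have : l + 1 ≤ x.2.degree := by
      have h2 : d.degree = x.1.degree + x.2.degree := by rw [← hx, map_add]
      omega
    rw [hq _ this, mul_zero]

theorem low_monomial (m : Fin n →₀ ℕ) (c : R) : Low (m.degree + 1) (monomial m c) := fun d hd => by
  classical
  rw [coeff_monomial, if_neg]
  rintro rfl
  omega

/-- `p = q + lower order` where `q` has degree at most `k`. -/
def Lead (k : ℕ) (p q : MvPolynomial (Fin n) R) : Prop := Low k (p - q) ∧ Low (k + 1) q

theorem Lead.left {k : ℕ} {p q : MvPolynomial (Fin n) R} (h : Lead k p q) : Low (k + 1) p := by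
  have := (h.1.mono (Nat.le_succ k)).add h.2
  simpa using this

theorem Lead.mul {k l : ℕ} {p q p' q' : MvPolynomial (Fin n) R} (h : Lead k p q)
    (h' : Lead l p' q') : Lead (k + l) (p * p') (q * q') := by
  constructor
  · have e : p * p' - q * q' = (p - q) * p' + (p' - q') * q := by ring
    rw [e]
    refine (h.1.mul h'.left).add ?_
    rw [add_comm k l]
    exact h'.1.mul h.2
  · have := h.2.mul (l := l) h'.2
    rwa [show k + l + 1 = k + 1 + l by ring]

theorem Lead.one : Lead 0 (1 : MvPolynomial (Fin n) R) 1 := by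
  refine ⟨by rw [sub_self]; exact Low.zero, fun d hd => ?_⟩
  classical
  rw [coeff_one, if_neg]
  rintro rfl
  simp at hd

theorem Lead.pow {k : ℕ} {p q : MvPolynomial (Fin n) R} (h : Lead k p q) (j : ℕ) :
    Lead (j * k) (p ^ j) (q ^ j) := by
  induction j with
  | zero => simpa using Lead.one
  | succ j ih =>
    rw [pow_succ, pow_succ, Nat.succ_mul]
    exact ih.mul h

theorem Lead.prod {ι : Type*} (s : Finset ι) (k : ι → ℕ) (p q : ι → MvPolynomial (Fin n) R)
    (h : ∀ i ∈ s, Lead (k i) (p i) (q i)) : Lead (∑ i ∈ s, k i) (∏ i ∈ s, p i) (∏ i ∈ s, q i) := by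
  classical
  induction s using Finset.induction_on with
  | empty => simpa using Lead.one
  | insert a s ha ih =>
    rw [Finset.sum_insert ha, Finset.prod_insert ha, Finset.prod_insert ha]
    exact (h a (Finset.mem_insert_self _ _)).mul (ih fun i hi => h i (Finset.mem_insert_of_mem hi))

theorem Lead.X (i : Fin n) : Lead 1 (X i : MvPolynomial (Fin n) R) (X i) := by
  refine ⟨by rw [sub_self]; exact Low.zero, ?_⟩
  have := low_monomial (R := R) (Finsupp.single i 1) 1
  rwa [Finsupp.degree_single] at this

variable (N : ℕ) (F : Fin n → MvPolynomial (Fin n) R)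

/-- The linear map replacing `X i ^ (N q + r)` by `F i ^ q * X i ^ r` in each monomial. -/
noncomputable def Phi : MvPolynomial (Fin n) R →ₗ[R] MvPolynomial (Fin n) R :=
  (basisMonomials (Fin n) R).constr R
    (fun m => ∏ i, (X i ^ (m i % N) * F i ^ (m i / N)))

theorem Phi_monomial_one (m : Fin n →₀ ℕ) :
    Phi N F (monomial m 1) = ∏ i, (X i ^ (m i % N) * F i ^ (m i / N)) := by
  have := (basisMonomials (Fin n) R).constr_basis R
    (fun m => ∏ i, (X i ^ (m i % N) * F i ^ (m i / N) : MvPolynomial (Fin n) R)) m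
  rw [coe_basisMonomials] at this
  exact this

theorem Phi_monomial (m : Fin n →₀ ℕ) (c : R) :
    Phi N F (monomial m c) = c • ∏ i, (X i ^ (m i % N) * F i ^ (m i / N)) := by
  have : monomial m c = c • (monomial m (1 : R)) := by
    rw [smul_monomial, smul_eq_mul, mul_one]
  rw [this, map_smul, Phi_monomial_one]

/-- The condition on `F`. -/
def IsLead : Prop := ∀ i, Low N (F i - X i ^ N)

variable {N F}

theorem IsLead.lead (hF : IsLead N F) (i : Fin n) : Lead N (F i) (X i ^ N) := by
  refine ⟨hF i, ?_⟩
  have := (Lead.X (R := R) i).pow N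
  rw [mul_one] at this
  exact this.2

theorem monomial_eq_prod (m : Fin n →₀ ℕ) :
    (monomial m 1 : MvPolynomial (Fin n) R) = ∏ i, (X i ^ (m i % N) * (X i ^ N) ^ (m i / N)) := by
  rw [monomial_eq, C_1, one_mul, Finsupp.prod_fintype _ _ (fun i => by simp)]
  refine Finset.prod_congr rfl fun i _ => ?_
  rw [← pow_mul, ← pow_add, Nat.mod_add_div]

theorem IsLead.phi_monomial (hF : IsLead N F) (m : Fin n →₀ ℕ) :
    Lead m.degree (Phi N F (monomial m 1)) (monomial m 1) := by
  rw [Phi_monomial_one, monomial_eq_prod (N := N)]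
  have : m.degree = ∑ i, ((m i % N) + (m i / N) * N) := by
    rw [Finsupp.degree_eq_sum]
    refine Finset.sum_congr rfl fun i _ => ?_
    rw [mul_comm, Nat.mod_add_div]
  rw [this]
  refine Lead.prod _ _ _ _ fun i _ => ?_
  refine Lead.mul ?_ ((hF.lead i).pow _)
  have := (Lead.X (R := R) i).pow (m i % N)
  rwa [mul_one] at this

theorem sub_phi_low (hF : IsLead N F) {k : ℕ} {p : MvPolynomial (Fin n) R} (hp : Low (k + 1) p) :
    Low k (p - Phi N F p) := by
  classical
  have e : p - Phi N F p = ∑ m ∈ p.support, coeff m p • (monomial m 1 - Phi N F (monomial m 1)) := by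
    conv_lhs => rw [MvPolynomial.as_sum p]
    rw [map_sum, ← Finset.sum_sub_distrib]
    refine Finset.sum_congr rfl fun m _ => ?_
    rw [Phi_monomial, Phi_monomial_one, smul_sub, smul_monomial, smul_eq_mul, mul_one]
  rw [e]
  refine Low.sum _ _ fun m hm => Low.smul ?_ _
  have h1 := (hF.phi_monomial m).1
  have h2 : m.degree ≤ k := by
    by_contra hcon
    exact (mem_support_iff.1 hm) (hp m (by omega))
  have h3 : Low m.degree (monomial m 1 - Phi N F (monomial m 1)) := by
    have := Low.sub Low.zero h1
    rwa [zero_sub, neg_sub] at this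
  exact h3.mono h2

theorem exists_low (p : MvPolynomial (Fin n) R) : ∃ k, Low k p := by
  refine ⟨p.totalDegree + 1, fun d hd => ?_⟩
  by_contra hcon
  have := le_totalDegree (mem_support_iff.2 hcon)
  rw [Finsupp.degree_eq_sum] at hd
  rw [Finsupp.sum_fintype _ _ (fun i => rfl)] at this
  omega

theorem eq_zero_of_low_zero {p : MvPolynomial (Fin n) R} (hp : Low 0 p) : p = 0 := by
  ext d
  rw [hp d (Nat.zero_le _), coeff_zero]

theorem phi_injective (hF : IsLead N F) : Function.Injective (Phi N F) := by
  rw [injective_iff_map_eq_zero]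
  intro p hp
  obtain ⟨k, hk⟩ := exists_low p
  induction k with
  | zero => exact eq_zero_of_low_zero hk
  | succ k ih =>
    apply ih
    have := sub_phi_low hF hk
    rwa [hp, sub_zero] at this

theorem phi_surjective (hF : IsLead N F) : Function.Surjective (Phi N F) := by
  intro p
  obtain ⟨k, hk⟩ := exists_low p
  induction k generalizing p with
  | zero => exact ⟨0, by rw [map_zero, eq_zero_of_low_zero hk]⟩
  | succ k ih =>
    obtain ⟨q, hq⟩ := ih _ (sub_phi_low hF hk)
    exact ⟨p + q, by rw [map_add, hq]; ring⟩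

/-- `Phi` as a linear equivalence. -/
noncomputable def PhiE (hF : IsLead N F) : MvPolynomial (Fin n) R ≃ₗ[R] MvPolynomial (Fin n) R :=
  LinearEquiv.ofBijective (Phi N F) ⟨phi_injective hF, phi_surjective hF⟩

theorem F_mul_phi (hN : 0 < N) (i : Fin n) (p : MvPolynomial (Fin n) R) :
    F i * Phi N F p = Phi N F (X i ^ N * p) := by
  classical
  induction p using MvPolynomial.induction_on' with
  | add p q hp hq => rw [map_add, mul_add, hp, hq, mul_add, map_add]
  | monomial m c =>
    have e : (X i ^ N * monomial m c : MvPolynomial (Fin n) R) =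
        monomial (Finsupp.single i N + m) c := by
      rw [X_pow_eq_monomial, monomial_mul, one_mul]
    rw [e, Phi_monomial, Phi_monomial, mul_smul_comm]
    congr 1
    rw [← Finset.mul_prod_erase Finset.univ _ (Finset.mem_univ i),
      ← Finset.mul_prod_erase Finset.univ (fun j => X j ^ ((Finsupp.single i N + m) j % N) *
        F j ^ ((Finsupp.single i N + m) j / N)) (Finset.mem_univ i)]
    have h1 : ((Finsupp.single i N + m) i) = m i + N := by
      rw [Finsupp.add_apply, Finsupp.single_eq_same, add_comm]
    rw [h1, Nat.add_mod_right, Nat.add_div_right _ hN, pow_succ]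
    rw [← mul_assoc]
    congr 1
    · ring
    · refine Finset.prod_congr rfl fun j hj => ?_
      have hij : i ≠ j := fun h => (Finset.mem_erase.1 hj).1 h.symm
      rw [Finsupp.add_apply, Finsupp.single_eq_of_ne hij.symm, zero_add]

/-- The coordinate of `p` modulo `(F)` at the monomial `a`. -/
noncomputable def cf (hF : IsLead N F) (a : Fin n →₀ ℕ) : MvPolynomial (Fin n) R →ₗ[R] R :=
  (lcoeff R a) ∘ₗ (PhiE hF).symm.toLinearMap

theorem cf_apply (hF : IsLead N F) (a : Fin n →₀ ℕ) (p : MvPolynomial (Fin n) R) :
    cf hF a p = coeff a ((PhiE hF).symm p) := rfl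

theorem cf_phi (hF : IsLead N F) (a : Fin n →₀ ℕ) (p : MvPolynomial (Fin n) R) :
    cf hF a (Phi N F p) = coeff a p := by
  rw [cf_apply]
  congr 1
  exact (PhiE hF).symm_apply_apply p

theorem cf_F_mul (hF : IsLead N F) (hN : 0 < N) (a : Fin n →₀ ℕ) (ha : ∀ i, a i < N) (i : Fin n)
    (p : MvPolynomial (Fin n) R) : cf hF a (F i * p) = 0 := by
  classical
  obtain ⟨w, rfl⟩ := phi_surjective hF p
  rw [F_mul_phi hN, cf_phi, X_pow_eq_monomial, coeff_monomial_mul', if_neg]
  intro h
  have := h i
  rw [Finsupp.single_eq_same] at this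
  exact absurd (ha i) (by omega)

theorem cf_ideal (hF : IsLead N F) (hN : 0 < N) (a : Fin n →₀ ℕ) (ha : ∀ i, a i < N)
    {p : MvPolynomial (Fin n) R} (hp : p ∈ Ideal.span (Set.range F)) : cf hF a p = 0 := by
  obtain ⟨c, rfl⟩ := (Ideal.mem_span_range_iff_exists_fun).1 hp
  rw [map_sum]
  refine Finset.sum_eq_zero fun i _ => ?_
  rw [mul_comm]
  exact cf_F_mul hF hN a ha i _

/-- box exponents -/
noncomputable def bx {N : ℕ} (v : Fin n → Fin N) : Fin n →₀ ℕ :=
  Finsupp.equivFunOnFinite.symm (fun i => (v i : ℕ))

@[simp] theorem bx_apply {N : ℕ} (v : Fin n → Fin N) (i : Fin n) : bx v i = v i := rfl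

theorem bx_injective {N : ℕ} : Function.Injective (bx (n := n) (N := N)) := by
  intro v w h
  funext i
  apply Fin.ext
  have := DFunLike.congr_fun h i
  simpa using this

theorem exists_bx {N : ℕ} (a : Fin n →₀ ℕ) (ha : ∀ i, a i < N) : ∃ v : Fin n → Fin N, bx v = a :=
  ⟨fun i => ⟨a i, ha i⟩, by ext i; simp⟩

theorem phi_bx (v : Fin n → Fin N) : Phi N F (monomial (bx v) 1) = monomial (bx v) 1 := by
  rw [Phi_monomial_one, monomial_eq_prod (N := N)]
  refine Finset.prod_congr rfl fun i _ => ?_
  have : (bx v i) / N = 0 := by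
    rw [bx_apply, Nat.div_eq_of_lt (v i).2]
  rw [this, pow_zero, pow_zero]

theorem cf_bx (hF : IsLead N F) (v w : Fin n → Fin N) :
    cf hF (bx v) (monomial (bx w) 1) = if v = w then 1 else 0 := by
  classical
  rw [← phi_bx (F := F) w, cf_phi, coeff_monomial]
  by_cases h : v = w
  · subst h; simp
  · rw [if_neg h, if_neg]
    intro h2
    exact h (bx_injective h2).symm

theorem sub_sum_cf_mem (hF : IsLead N F) (p : MvPolynomial (Fin n) R) :
    p - ∑ v : Fin n → Fin N, cf hF (bx v) p • monomial (bx v) (1 : R) ∈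
      Ideal.span (Set.range F) := by
  classical
  obtain ⟨w, rfl⟩ := phi_surjective hF p
  induction w using MvPolynomial.induction_on' with
  | add p q hp hq =>
    have := (Ideal.span (Set.range F)).add_mem hp hq
    convert this using 1
    rw [map_add]
    simp only [map_add, add_smul, Finset.sum_add_distrib]
    ring
  | monomial m c =>
    by_cases hm : ∀ i, m i < N
    · obtain ⟨v, rfl⟩ := exists_bx m hm
      have e1 : Phi N F (monomial (bx v) c) = c • monomial (bx v) (1 : R) := by
        have : monomial (bx v) c = c • (monomial (bx v) (1 : R)) := by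
          rw [smul_monomial, smul_eq_mul, mul_one]
        rw [this, map_smul, phi_bx]
      have e2 : ∑ w : Fin n → Fin N, cf hF (bx w) (Phi N F (monomial (bx v) c)) •
          monomial (bx w) (1 : R) = c • monomial (bx v) (1 : R) := by
        rw [Finset.sum_eq_single v]
        · rw [e1, map_smul, cf_bx, if_pos rfl, smul_eq_mul, mul_one]
        · intro w _ hw
          rw [e1, map_smul, cf_bx, if_neg hw, smul_zero, zero_smul]
        · intro h
          exact absurd (Finset.mem_univ v) h
      rw [e2, e1, sub_self]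
      exact Ideal.zero_mem _
    · push Not at hm
      obtain ⟨i, hi⟩ := hm
      have e2 : ∑ w : Fin n → Fin N, cf hF (bx w) (Phi N F (monomial m c)) •
          monomial (bx w) (1 : R) = 0 := by
        refine Finset.sum_eq_zero fun w _ => ?_
        rw [cf_phi, coeff_monomial, if_neg, zero_smul]
        rintro rfl
        rw [bx_apply] at hi
        exact absurd (w i).2 (by omega)
      rw [e2, sub_zero, Phi_monomial]
      apply Submodule.smul_of_tower_mem
      rcases Nat.eq_zero_or_pos N with hN | hN
      · subst hN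
        simp only [Nat.div_zero, pow_zero, mul_one, Nat.mod_zero]
        have := hF i
        rw [pow_zero] at this
        have h1 : F i = 1 := by
          have := eq_zero_of_low_zero this
          exact sub_eq_zero.1 this
        have : Ideal.span (Set.range F) = ⊤ := by
          rw [Ideal.eq_top_iff_one]
          exact Ideal.subset_span ⟨i, h1⟩
        rw [this]
        trivial
      · refine Ideal.mem_of_dvd _ ?_ (Ideal.subset_span (Set.mem_range_self i))
        refine Dvd.dvd.trans ?_ (Finset.dvd_prod_of_mem _ (Finset.mem_univ i))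
        refine Dvd.dvd.mul_left ?_ _
        refine dvd_pow_self _ ?_
        have := Nat.div_pos hi hN
        omega

/-- `R[x]/(F)` has the box monomials as coordinates. -/
noncomputable def quotE (hF : IsLead N F) (hN : 0 < N) :
    (MvPolynomial (Fin n) R ⧸ Ideal.span (Set.range F)) ≃ₗ[R] ((Fin n → Fin N) → R) :=
  LinearEquiv.ofLinearMap
    (((Ideal.span (Set.range F)).restrictScalars R).liftQ
      (LinearMap.pi fun v => cf hF (bx v)) (by
        intro p hp
        rw [LinearMap.mem_ker]
        funext v
        exact cf_ideal hF hN (bx v) (fun i => (v i).2) hp))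
    ((Ideal.Quotient.mkₐ R (Ideal.span (Set.range F))).toLinearMap ∘ₗ
      (Fintype.linearCombination R (fun v : Fin n → Fin N => (monomial (bx v) (1 : R)))))
    (by
      classical
      apply LinearMap.ext
      intro c
      funext v
      change cf hF (bx v) (Fintype.linearCombination R
        (fun v : Fin n → Fin N => (monomial (bx v) (1 : R))) c) = c v
      rw [Fintype.linearCombination_apply, map_sum, Finset.sum_eq_single v]
      · rw [map_smul, cf_bx, if_pos rfl, smul_eq_mul, mul_one]
      · intro w _ hw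
        rw [map_smul, cf_bx, if_neg hw.symm, smul_zero]
      · intro h
        exact absurd (Finset.mem_univ v) h)
    (by
      apply LinearMap.ext
      intro x
      obtain ⟨p, rfl⟩ := Ideal.Quotient.mk_surjective x
      change Ideal.Quotient.mk _ (Fintype.linearCombination R
        (fun v : Fin n → Fin N => (monomial (bx v) (1 : R))) (fun v => cf hF (bx v) p)) =
          Ideal.Quotient.mk _ p
      rw [eq_comm, Ideal.Quotient.eq, Fintype.linearCombination_apply]
      exact sub_sum_cf_mem hF p)

theorem quotE_mk (hF : IsLead N F) (hN : 0 < N) (p : MvPolynomial (Fin n) R)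
    (v : Fin n → Fin N) : quotE hF hN (Ideal.Quotient.mk _ p) v = cf hF (bx v) p := rfl

/-- the box basis -/
noncomputable def bas (hF : IsLead N F) (hN : 0 < N) :
    Module.Basis (Fin n → Fin N) R (MvPolynomial (Fin n) R ⧸ Ideal.span (Set.range F)) :=
  Module.Basis.ofEquivFun (quotE hF hN)

theorem bas_repr (hF : IsLead N F) (hN : 0 < N) (p : MvPolynomial (Fin n) R)
    (v : Fin n → Fin N) : (bas hF hN).repr (Ideal.Quotient.mk _ p) v = cf hF (bx v) p := by
  rw [bas, Module.Basis.ofEquivFun_repr_apply, quotE_mk]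

theorem bas_apply (hF : IsLead N F) (hN : 0 < N) (v : Fin n → Fin N) :
    bas hF hN v = Ideal.Quotient.mk _ (monomial (bx v) (1 : R)) := by
  classical
  apply (bas hF hN).repr.injective
  ext w
  rw [Module.Basis.repr_self, bas_repr, cf_bx, Finsupp.single_apply]
  simp only [eq_comm]

theorem trace_quot (hF : IsLead N F) (hN : 0 < N)
    (f : (MvPolynomial (Fin n) R ⧸ Ideal.span (Set.range F)) →ₗ[R]
      (MvPolynomial (Fin n) R ⧸ Ideal.span (Set.range F)))
    (f' : MvPolynomial (Fin n) R → MvPolynomial (Fin n) R)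
    (hf : ∀ p, f (Ideal.Quotient.mk _ p) = Ideal.Quotient.mk _ (f' p)) :
    LinearMap.trace R _ f = ∑ v : Fin n → Fin N, cf hF (bx v) (f' (monomial (bx v) 1)) := by
  classical
  rw [LinearMap.trace_eq_matrix_trace R (bas hF hN), Matrix.trace]
  refine Finset.sum_congr rfl fun v _ => ?_
  rw [Matrix.diag_apply, LinearMap.toMatrix_apply, bas_apply, hf, bas_repr]

section map

variable {R' : Type*} [CommRing R'] (φ : R →+* R')

theorem Low.map {k : ℕ} {p : MvPolynomial (Fin n) R} (hp : Low k p) :
    Low k (MvPolynomial.map φ p) := fun d hd => by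
  rw [coeff_map, hp d hd, map_zero]

theorem IsLead.map (hF : IsLead N F) : IsLead N (fun i => MvPolynomial.map φ (F i)) := fun i => by
  have := (hF i).map φ
  rwa [map_sub, map_pow, map_X] at this

theorem map_phi (p : MvPolynomial (Fin n) R) :
    MvPolynomial.map φ (Phi N F p) = Phi N (fun i => MvPolynomial.map φ (F i))
      (MvPolynomial.map φ p) := by
  induction p using MvPolynomial.induction_on' with
  | add p q hp hq => simp only [map_add, hp, hq]
  | monomial m c =>
    rw [map_monomial, Phi_monomial, Phi_monomial, smul_eq_C_mul, smul_eq_C_mul, map_mul, map_C,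
      map_prod]
    congr 1
    refine Finset.prod_congr rfl fun i _ => ?_
    rw [map_mul, map_pow, map_pow, map_X]

theorem cf_map (hF : IsLead N F) (a : Fin n →₀ ℕ) (p : MvPolynomial (Fin n) R) :
    cf (hF.map φ) a (MvPolynomial.map φ p) = φ (cf hF a p) := by
  obtain ⟨w, rfl⟩ := phi_surjective hF p
  rw [map_phi, cf_phi, cf_phi, coeff_map]

end map

end

end Pool.Agent.W627.EqDeg
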