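import Pool.Agent.W627.EqDegA
import Pool.Agent.W627.EqDegB

set_option autoImplicit false

/-! The global trace formula. -/

namespace Pool.Agent.W627.EqDeg

open MvPolynomial

section

variable {K : Type*} [Field K] {n N : ℕ} (l : Fin n → K)

/-- scaling of the coordinates -/
noncomputable def scal : MvPolynomial (Fin n) K →ₐ[K] MvPolynomial (Fin n) K :=
  aeval (fun i => l i • (X i : MvPolynomial (Fin n) K))

theorem scal_X (i : Fin n) : scal l (X i) = l i • X i := by
  rw [scal, aeval_X]

theorem scal_monomial (m : Fin n →₀ ℕ) (c : K) :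
    scal l (monomial m c) = (∏ i, l i ^ m i) • monomial m c := by
  rw [scal, aeval_monomial, Finsupp.prod_fintype _ _ (fun i => by simp)]
  simp only [smul_pow]
  rw [Finset.prod_smul]
  rw [monomial_eq, Finsupp.prod_fintype _ _ (fun i => by simp)]
  rw [mul_smul_comm]
  rfl

theorem coeff_scal (m : Fin n →₀ ℕ) (p : MvPolynomial (Fin n) K) :
    coeff m (scal l p) = (∏ i, l i ^ m i) * coeff m p := by
  classical
  induction p using MvPolynomial.induction_on' with
  | add p q hp hq => rw [map_add, coeff_add, hp, hq, coeff_add, mul_add]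
  | monomial a c =>
    rw [scal_monomial, coeff_smul, coeff_monomial, smul_eq_mul]
    by_cases h : a = m
    · subst h; rfl
    · rw [if_neg h, mul_zero, mul_zero]

/-- The ideal of the fixed subspace. -/
noncomputable def Iy : Ideal (MvPolynomial (Fin n) K) :=
  Ideal.span (X '' {i | l i ≠ 1})

theorem X_mem_Iy {i : Fin n} (hi : l i ≠ 1) : (X i : MvPolynomial (Fin n) K) ∈ Iy l :=
  Ideal.subset_span ⟨i, hi, rfl⟩

theorem mem_Iy_of_eigen {c : K} (hc : c ≠ 1) {p : MvPolynomial (Fin n) K}
    (hp : scal l p = c • p) : p ∈ Iy l := by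
  rw [Iy, mem_ideal_span_X_image]
  intro m hm
  have h1 := coeff_scal l m p
  rw [hp, coeff_smul, smul_eq_mul] at h1
  have h2 : c = ∏ i, l i ^ m i := mul_right_cancel₀ (mem_support_iff.1 hm) h1
  by_contra hcon
  push Not at hcon
  apply hc
  rw [h2]
  refine Finset.prod_eq_one fun i _ => ?_
  by_cases hi : l i = 1
  · rw [hi, one_pow]
  · rw [hcon i hi, pow_zero]

theorem scal_sub_mem (p : MvPolynomial (Fin n) K) : scal l p - p ∈ Iy l := by
  rw [← Ideal.Quotient.eq]
  have : (Ideal.Quotient.mkₐ K (Iy l)).comp (scal l) = Ideal.Quotient.mkₐ K (Iy l) := by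
    apply MvPolynomial.algHom_ext
    intro i
    change Ideal.Quotient.mk _ (scal l (X i)) = Ideal.Quotient.mk _ (X i)
    rw [Ideal.Quotient.eq, scal_X]
    by_cases hi : l i = 1
    · rw [hi, one_smul, sub_self]
      exact Ideal.zero_mem _
    · have h2 : l i • (X i : MvPolynomial (Fin n) K) - X i = (C (l i) - 1) * X i := by
        rw [smul_eq_C_mul]; ring
      rw [h2]
      exact Ideal.mul_mem_left _ _ (X_mem_Iy l hi)
  exact DFunLike.congr_fun this p

variable (F : Fin n → MvPolynomial (Fin n) K)

/-- The family over `K[t]`. -/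
noncomputable def Ft (i : Fin n) : MvPolynomial (Fin n) (Polynomial K) :=
  open Classical in
  map Polynomial.C (F i) + (if l i = 1 then 0 else C Polynomial.X * X i)

/-- The specialised family. -/
noncomputable def Fs (t : K) (i : Fin n) : MvPolynomial (Fin n) K :=
  open Classical in
  F i + (if l i = 1 then 0 else C t * X i)

theorem map_Ft (t : K) : (fun i => map (Polynomial.evalRingHom t) (Ft l F i)) = Fs l F t := by
  funext i
  rw [Ft, Fs, map_add, map_map]
  have h1 : (Polynomial.evalRingHom t).comp Polynomial.C = RingHom.id K := by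
    ext x; simp
  rw [h1, map_id]
  split_ifs with h
  · rw [map_zero]
  · rw [map_mul, map_C, map_X]
    simp

theorem Fs_zero : Fs l F 0 = F := by
  funext i
  rw [Fs]
  split_ifs <;> simp

variable {l F}

theorem Ft_lead (hN : 2 ≤ N) (hF : IsLead N F) : IsLead N (Ft l F) := by
  intro i
  have h1 : Ft l F i - X i ^ N = (map Polynomial.C (F i) - X i ^ N) +
      (open Classical in if l i = 1 then 0 else C Polynomial.X * X i) := by
    rw [Ft]; ring
  rw [h1]
  refine Low.add ((hF.map Polynomial.C) i) ?_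
  split_ifs
  · exact Low.zero
  · have := low_monomial (R := Polynomial K) (Finsupp.single i 1) Polynomial.X
    rw [Finsupp.degree_single] at this
    rw [← pow_one (X i), X_pow_eq_monomial, C_mul_monomial, mul_one]
    exact this.mono hN

theorem Fs_lead (hN : 2 ≤ N) (hF : IsLead N F) (t : K) : IsLead N (Fs l F t) := by
  rw [← map_Ft]
  exact (Ft_lead hN hF).map _

theorem cf_congr {R : Type*} [CommRing R] {F1 F2 : Fin n → MvPolynomial (Fin n) R} (h : F1 = F2)
    (h1 : IsLead N F1) (h2 : IsLead N F2) (a : Fin n →₀ ℕ) (p : MvPolynomial (Fin n) R) :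
    cf h1 a p = cf h2 a p := by
  subst h; rfl

theorem scal_Fs (hg : ∀ i, scal l (F i) = l i • F i) (t : K) (i : Fin n) :
    scal l (Fs l F t i) = l i • Fs l F t i := by
  rw [Fs, map_add, hg, smul_add]
  congr 1
  split_ifs with h
  · rw [map_zero, smul_zero]
  · rw [← smul_eq_C_mul, map_smul, scal_X, smul_comm]

/-- The induced map on the quotient. -/
noncomputable def gq (hg : ∀ i, scal l (F i) = l i • F i) :
    (MvPolynomial (Fin n) K ⧸ Ideal.span (Set.range F)) →ₐ[K]
      (MvPolynomial (Fin n) K ⧸ Ideal.span (Set.range F)) :=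
  Ideal.quotientMapₐ _ (scal l) (by
    rw [Ideal.span_le]
    rintro _ ⟨i, rfl⟩
    change scal l (F i) ∈ Ideal.span (Set.range F)
    rw [hg]
    exact Submodule.smul_of_tower_mem _ _ (Ideal.subset_span ⟨i, rfl⟩))

theorem gq_mk (hg : ∀ i, scal l (F i) = l i • F i) (p : MvPolynomial (Fin n) K) :
    gq hg (Ideal.Quotient.mk _ p) = Ideal.Quotient.mk _ (scal l p) := rfl

theorem Fs_sub_mem (t : K) (i : Fin n) : Fs l F t i - F i ∈ Iy l := by
  rw [Fs, add_sub_cancel_left]
  split_ifs with h
  · exact Ideal.zero_mem _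
  · exact Ideal.mul_mem_left _ _ (X_mem_Iy l h)

theorem sup_eq (t : K) : Ideal.span (Set.range (Fs l F t)) ⊔ Iy l =
    Ideal.span (Set.range F) ⊔ Iy l := by
  apply le_antisymm
  · refine sup_le ?_ le_sup_right
    rw [Ideal.span_le]
    rintro _ ⟨i, rfl⟩
    have h1 : Fs l F t i = F i + (Fs l F t i - F i) := by ring
    rw [h1]
    exact Submodule.add_mem_sup (Ideal.subset_span ⟨i, rfl⟩) (Fs_sub_mem t i)
  · refine sup_le ?_ le_sup_right
    rw [Ideal.span_le]
    rintro _ ⟨i, rfl⟩
    have h1 : F i = Fs l F t i + -(Fs l F t i - F i) := by ring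
    rw [h1]
    exact Submodule.add_mem_sup (Ideal.subset_span ⟨i, rfl⟩) ((Iy l).neg_mem (Fs_sub_mem t i))

theorem finite_quot (hN : 0 < N) (hF : IsLead N F) :
    Module.Finite K (MvPolynomial (Fin n) K ⧸ Ideal.span (Set.range F)) :=
  Module.Finite.of_basis (bas hF hN)

theorem finite_quot_of_le (hN : 0 < N) (hF : IsLead N F) {I : Ideal (MvPolynomial (Fin n) K)}
    (hI : Ideal.span (Set.range F) ≤ I) : Module.Finite K (MvPolynomial (Fin n) K ⧸ I) := by
  have := finite_quot hN hF
  exact Module.Finite.of_surjective (Ideal.Quotient.factorₐ K hI).toLinearMap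
    (Ideal.Quotient.factor_surjective hI)

/-- The idempotency of the ideal of the fixed space for good parameters. -/
theorem good (hg : ∀ i, scal l (F i) = l i • F i) (hN : 0 < N) (hF : IsLead N F) :
    ∃ B : Set K, B.Finite ∧ ∀ t ∉ B,
      (Iy l).map (Ideal.Quotient.mk (Ideal.span (Set.range (Fs l F t)))) ≤
      (Iy l).map (Ideal.Quotient.mk (Ideal.span (Set.range (Fs l F t)))) *
      (Iy l).map (Ideal.Quotient.mk (Ideal.span (Set.range (Fs l F t)))) := by
  classical
  set Y : Type := {i : Fin n // l i ≠ 1} with hY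
  have hIy : Iy l = Ideal.span (Set.range (fun i : Y => (X i.1 : MvPolynomial (Fin n) K))) := by
    rw [Iy]
    congr 1
    ext p
    constructor
    · rintro ⟨i, hi, rfl⟩
      exact ⟨⟨i, hi⟩, rfl⟩
    · rintro ⟨i, rfl⟩
      exact ⟨i.1, i.2, rfl⟩
  -- the matrix
  have hA : ∀ i : Y, ∃ a : Y → MvPolynomial (Fin n) K, ∑ j, a j * X j.1 = F i.1 := by
    intro i
    have h1 := mem_Iy_of_eigen l i.2 (hg i.1)
    rw [hIy] at h1
    exact (Ideal.mem_span_range_iff_exists_fun).1 h1
  choose A hA using hA
  set E := MvPolynomial (Fin n) K ⧸ (Ideal.span (Set.range F) ⊔ Iy l) with hE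
  have : Module.Finite K E := finite_quot_of_le hN hF le_sup_left
  let Ab : Matrix Y Y E := Matrix.of fun i j => Ideal.Quotient.mk _ (A i j)
  let L : Module.End K (Y → E) := (Matrix.mulVecLin Ab).restrictScalars K
  refine ⟨(fun x => -x) ⁻¹' {t | L.HasEigenvalue t}, ?_, ?_⟩
  · exact (Module.End.finite_hasEigenvalue L).preimage (neg_injective.injOn)
  intro t ht
  have ht' : ¬ L.HasEigenvalue (-t) := ht
  -- the operator `L + t` is bijective
  let L' : Module.End K (Y → E) := L + t • LinearMap.id
  have hinj : Function.Injective L' := by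
    rw [injective_iff_map_eq_zero]
    intro v hv
    by_contra hne
    apply ht'
    apply Module.End.hasEigenvalue_of_hasEigenvector (x := v)
    rw [Module.End.hasEigenvector_iff]
    refine ⟨?_, hne⟩
    rw [Module.End.mem_eigenspace_iff]
    have : L v + t • v = 0 := hv
    rw [neg_smul]
    exact eq_neg_of_add_eq_zero_left this
  have hsurj : Function.Surjective L' := LinearMap.surjective_of_injective hinj
  let M0 : Matrix Y Y E := Ab + t • (1 : Matrix Y Y E)
  have hM0 : ∀ v, M0.mulVec v = L' v := by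
    intro v
    change (Ab + t • (1 : Matrix Y Y E)).mulVec v = Ab.mulVec v + t • v
    rw [Matrix.add_mulVec, Matrix.smul_mulVec, Matrix.one_mulVec]
  choose w hw using fun k : Y => hsurj (Pi.single k 1)
  let B : Matrix Y Y E := Matrix.of fun j k => w k j
  have hMB : M0 * B = 1 := by
    ext i k
    rw [Matrix.mul_apply]
    have h1 := congrFun (hM0 (w k)) i
    rw [hw] at h1
    rw [Matrix.one_apply]
    change ∑ j, M0 i j * w k j = _
    have h2 : M0.mulVec (w k) i = ∑ j, M0 i j * w k j := rfl
    rw [← h2, h1, Pi.single_apply]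
  have hBM : B * M0 = 1 := mul_eq_one_comm.1 hMB
  choose b hb using fun (j k : Y) => Ideal.Quotient.mk_surjective (B j k)
  -- lifts
  have hw' : ∀ i k : Y, (∑ j, b i j * (A j k + if j = k then C t else 0)) -
      (if i = k then 1 else 0) ∈ Ideal.span (Set.range (Fs l F t)) ⊔ Iy l := by
    intro i k
    rw [sup_eq, ← Ideal.Quotient.eq_zero_iff_mem, map_sub, map_sum]
    have h1 := congrFun (congrFun hBM i) k
    rw [Matrix.mul_apply, Matrix.one_apply] at h1
    have h2 : ∀ j, Ideal.Quotient.mk (Ideal.span (Set.range F) ⊔ Iy l)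
        (b i j * (A j k + if j = k then C t else 0)) = B i j * M0 j k := by
      intro j
      rw [map_mul, hb, map_add]
      congr 1
      change _ = Ab j k + t • (1 : Matrix Y Y E) j k
      congr 1
      rw [Matrix.one_apply]
      split_ifs
      · rw [Algebra.smul_def, mul_one]
        rfl
      · rw [map_zero, smul_zero]
    rw [Finset.sum_congr rfl (fun j _ => h2 j), h1]
    split_ifs
    · rw [map_one, sub_self]
    · rw [map_zero, sub_self]
  -- conclusion
  have hFs : ∀ j : Y, ∑ k, (A j k + if j = k then C t else 0) * X k.1 = Fs l F t j.1 := by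
    intro j
    rw [Fs, if_neg j.2]
    simp only [add_mul, Finset.sum_add_distrib, hA, ite_mul, zero_mul]
    congr 1
    rw [Finset.sum_eq_single j]
    · rw [if_pos rfl]
    · intro k _ hk
      rw [if_neg hk.symm]
    · intro h
      exact absurd (Finset.mem_univ j) h
  set mk := Ideal.Quotient.mk (Ideal.span (Set.range (Fs l F t))) with hmk
  set J := (Iy l).map mk with hJ
  have hmemJ : ∀ p, p ∈ Ideal.span (Set.range (Fs l F t)) ⊔ Iy l → mk p ∈ J := by
    intro p hp
    obtain ⟨a, ha, c, hc, rfl⟩ := Submodule.mem_sup.1 hp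
    rw [map_add, Ideal.Quotient.eq_zero_iff_mem.2 ha, zero_add]
    exact Ideal.mem_map_of_mem _ hc
  have hspan : J = Ideal.span (Set.range (fun i : Y => mk (X i.1))) := by
    rw [hJ, hIy, Ideal.map_span, ← Set.range_comp]
    rfl
  conv_lhs => rw [hspan]
  rw [Ideal.span_le]
  rintro _ ⟨i, rfl⟩
  change mk (X i.1) ∈ J * J
  have h3 : (X i.1 : MvPolynomial (Fin n) K) = ∑ j, b i j * Fs l F t j.1 -
      ∑ k, ((∑ j, b i j * (A j k + if j = k then C t else 0)) - (if i = k then 1 else 0)) *
        X k.1 := by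
    have h4 : ∑ k, ((∑ j, b i j * (A j k + if j = k then C t else 0)) -
        (if i = k then (1 : MvPolynomial (Fin n) K) else 0)) * X k.1 =
        ∑ j, b i j * (∑ k, (A j k + if j = k then C t else 0) * X k.1) - X i.1 := by
      simp only [sub_mul, Finset.sum_sub_distrib, Finset.sum_mul, Finset.mul_sum]
      congr 1
      · rw [Finset.sum_comm]
        refine Finset.sum_congr rfl fun j _ => Finset.sum_congr rfl fun k _ => ?_
        ring
      · simp only [ite_mul, one_mul, zero_mul]
        rw [Finset.sum_eq_single i]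
        · rw [if_pos rfl]
        · intro k _ hk
          rw [if_neg hk.symm]
        · intro h
          exact absurd (Finset.mem_univ i) h
    rw [h4]
    simp only [hFs]
    ring
  rw [h3, map_sub]
  refine Ideal.sub_mem _ ?_ ?_
  · have : mk (∑ j, b i j * Fs l F t j.1) = 0 := by
      rw [map_sum]
      refine Finset.sum_eq_zero fun j _ => ?_
      rw [map_mul]
      have : mk (Fs l F t j.1) = 0 :=
        Ideal.Quotient.eq_zero_iff_mem.2 (Ideal.subset_span ⟨j.1, rfl⟩)
      rw [this, mul_zero]
    rw [this]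
    exact Ideal.zero_mem _
  · rw [map_sum]
    refine Ideal.sum_mem _ fun k _ => ?_
    rw [map_mul]
    exact Ideal.mul_mem_mul (hmemJ _ (hw' i k)) (Ideal.mem_map_of_mem _ (X_mem_Iy l k.2))

/-- The global trace formula. -/
theorem star [Infinite K] (hg : ∀ i, scal l (F i) = l i • F i) (hN : 2 ≤ N) (hF : IsLead N F)
    (h : MvPolynomial (Fin n) K) :
    LinearMap.trace K _ (LinearMap.mulLeft K (Ideal.Quotient.mk (Ideal.span (Set.range F)) h) ∘ₗ
      (gq hg).toLinearMap) =
    LinearMap.trace K _ (LinearMap.mulLeft K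
      (Ideal.Quotient.mk (Ideal.span (Set.range F) ⊔ Iy l) h)) := by
  classical
  have hN0 : 0 < N := by omega
  set c : K := LinearMap.trace K _ (LinearMap.mulLeft K
      (Ideal.Quotient.mk (Ideal.span (Set.range F) ⊔ Iy l) h)) with hc
  let P : Polynomial K := ∑ v : Fin n → Fin N, cf (Ft_lead (l := l) hN hF) (bx v)
    (map Polynomial.C (h * scal l (monomial (bx v) 1)))
  have hP : ∀ t : K, LinearMap.trace K _ (LinearMap.mulLeft K
      (Ideal.Quotient.mk (Ideal.span (Set.range (Fs l F t))) h) ∘ₗ
      (gq (scal_Fs hg t)).toLinearMap) = P.eval t := by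
    intro t
    rw [trace_quot (Fs_lead hN hF t) hN0 _ (fun p => h * scal l p)]
    · rw [← Polynomial.coe_evalRingHom, map_sum]
      refine Finset.sum_congr rfl fun v _ => ?_
      rw [← cf_map, map_map]
      have h1 : (Polynomial.evalRingHom t).comp Polynomial.C = RingHom.id K := by
        ext x; simp
      rw [h1, map_id]
      exact cf_congr (map_Ft l F t).symm _ _ _ _
    · intro p
      rfl
  obtain ⟨B, hB, hgood⟩ := good hg hN0 hF
  have hPc : P = Polynomial.C c := by
    apply Polynomial.eq_of_infinite_eval_eq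
    refine Set.Infinite.mono ?_ hB.infinite_compl
    intro t ht
    change P.eval t = (Polynomial.C c).eval t
    rw [Polynomial.eval_C, ← hP t, hc]
    have hfin : Module.Finite K (MvPolynomial (Fin n) K ⧸ Ideal.span (Set.range (Fs l F t))) :=
      finite_quot hN0 (Fs_lead hN hF t)
    have hfin2 : Module.Finite K (MvPolynomial (Fin n) K ⧸ (Ideal.span (Set.range F) ⊔ Iy l)) :=
      finite_quot_of_le hN0 hF le_sup_left
    have hle : Ideal.span (Set.range (Fs l F t)) ≤ Ideal.span (Set.range F) ⊔ Iy l := by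
      rw [← sup_eq t]; exact le_sup_left
    refine trace_eq_trace_quot (Ideal.Quotient.mk (Ideal.span (Set.range (Fs l F t))) h)
      (gq (scal_Fs hg t)) (fun i : {i : Fin n // l i ≠ 1} => Ideal.Quotient.mk _ (X i.1))
      (fun i => l i.1) (fun i => i.2) ?_
      ((Iy l).map (Ideal.Quotient.mk (Ideal.span (Set.range (Fs l F t))))) ?_ (hgood t ht) ?_
      (Ideal.Quotient.factorₐ K hle).toLinearMap (Ideal.Quotient.factor_surjective hle) ?_ _ ?_
    · intro i
      rw [gq_mk, scal_X]
      rfl
    · rw [Iy, Ideal.map_span]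
      congr 1
      ext p
      constructor
      · rintro ⟨_, ⟨i, hi, rfl⟩, rfl⟩
        exact ⟨⟨i, hi⟩, rfl⟩
      · rintro ⟨i, rfl⟩
        exact ⟨_, ⟨i.1, i.2, rfl⟩, rfl⟩
    · intro d
      obtain ⟨p, rfl⟩ := Ideal.Quotient.mk_surjective d
      rw [gq_mk, ← map_sub]
      exact Ideal.mem_map_of_mem _ (scal_sub_mem l p)
    · intro d
      obtain ⟨p, rfl⟩ := Ideal.Quotient.mk_surjective d
      change Ideal.Quotient.mk (Ideal.span (Set.range F) ⊔ Iy l) p = 0 ↔ _
      rw [Ideal.Quotient.eq_zero_iff_mem, ← sup_eq t]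
      constructor
      · intro hp
        obtain ⟨a, ha, c, hc, rfl⟩ := Submodule.mem_sup.1 hp
        rw [map_add, Ideal.Quotient.eq_zero_iff_mem.2 ha, zero_add]
        exact Ideal.mem_map_of_mem _ hc
      · intro hp
        rw [Ideal.mem_map_iff_of_surjective _ Ideal.Quotient.mk_surjective] at hp
        obtain ⟨q, hq, hqp⟩ := hp
        rw [Ideal.Quotient.eq] at hqp
        have : p = -(q - p) + q := by ring
        rw [this]
        exact Submodule.add_mem_sup (neg_mem hqp) hq
    · intro d
      obtain ⟨p, rfl⟩ := Ideal.Quotient.mk_surjective d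
      rfl
  have h0 := hP 0
  rw [hPc, Polynomial.eval_C] at h0
  rw [← h0]
  have hFs0 := Fs_zero l F
  -- transport along `Fs l F 0 = F`
  have key : ∀ (F' : Fin n → MvPolynomial (Fin n) K) (hF' : F' = F)
      (hg' : ∀ i, scal l (F' i) = l i • F' i),
      LinearMap.trace K _ (LinearMap.mulLeft K
        (Ideal.Quotient.mk (Ideal.span (Set.range F')) h) ∘ₗ (gq hg').toLinearMap) =
      LinearMap.trace K _ (LinearMap.mulLeft K
        (Ideal.Quotient.mk (Ideal.span (Set.range F)) h) ∘ₗ (gq hg).toLinearMap) := by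
    intro F' hF' hg'
    subst hF'
    rfl
  exact (key _ hFs0 _).symm

end

end Pool.Agent.W627.EqDeg
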