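import Pool.Agent.W627.EqDegC

set_option autoImplicit false

/-! Diagonalisation, and the local trace formula. -/

namespace Pool.Agent.W627.EqDeg

open MvPolynomial

theorem exists_diag {n : ℕ} (M : Matrix (Fin n) (Fin n) ℂ) {m : ℕ} (hm : m ≠ 0) (hM : M ^ m = 1) :
    ∃ (W P : Matrix (Fin n) (Fin n) ℂ) (l : Fin n → ℂ), W * P = 1 ∧ P * W = 1 ∧
      W * M = Matrix.diagonal l * W ∧ ∀ i, l i ^ m = 1 := by
  classical
  let f : Module.End ℂ (Fin n → ℂ) := Matrix.toLin' M
  have hfm : f ^ m = 1 := by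
    change (Matrix.toLin' M) ^ m = 1
    rw [← Matrix.toLin'_pow, hM, Matrix.toLin'_one]
    rfl
  have hss : f.IsSemisimple := by
    refine Module.End.isSemisimple_of_squarefree_aeval_eq_zero
      (p := (Polynomial.X ^ m - 1 : Polynomial ℂ)) ?_ ?_
    · exact (Polynomial.X_pow_sub_one_separable_iff.2 (Nat.cast_ne_zero.2 hm)).squarefree
    · simp [hfm]
  have htop := hss.iSup_eigenspace_eq_top
  set s : Set (Fin n → ℂ) := {v | ∃ μ : ℂ, f v = μ • v} with hs
  have hspan : ⊤ ≤ Submodule.span ℂ s := by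
    rw [← htop]
    refine iSup_le fun μ => ?_
    intro v hv
    exact Submodule.subset_span ⟨μ, Module.End.mem_eigenspace_iff.1 hv⟩
  let b0 := Module.Basis.ofSpan hspan
  let hfin := FiniteDimensional.fintypeBasisIndex b0
  have hcard := Module.finrank_eq_card_basis b0
  rw [Module.finrank_fin_fun] at hcard
  have hcard' := hcard.symm.trans (Fintype.card_fin n).symm
  let b : Module.Basis (Fin n) ℂ (Fin n → ℂ) := b0.reindex (Fintype.equivOfCardEq hcard')
  have hb : ∀ i, ∃ μ : ℂ, f (b i) = μ • b i := by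
    intro i
    have : b i ∈ s := by
      rw [Module.Basis.reindex_apply]
      exact Module.Basis.ofSpan_subset hspan ⟨_, rfl⟩
    exact this
  choose l hl using hb
  have hlm : ∀ i, l i ^ m = 1 := by
    intro i
    have h1 : ∀ k : ℕ, (f ^ k) (b i) = l i ^ k • b i := by
      intro k
      induction k with
      | zero => simp
      | succ k ih =>
        rw [pow_succ', Module.End.mul_apply, ih, map_smul, hl, smul_smul, pow_succ]
    have h2 := h1 m
    rw [hfm, Module.End.one_apply] at h2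
    have h3 : (1 - l i ^ m) • b i = 0 := by rw [sub_smul, one_smul, ← h2, sub_self]
    rcases smul_eq_zero.1 h3 with h4 | h4
    · exact (sub_eq_zero.1 h4).symm
    · exact absurd h4 (b.ne_zero i)
  let P : Matrix (Fin n) (Fin n) ℂ := Matrix.of fun i j => b j i
  let W : Matrix (Fin n) (Fin n) ℂ := Matrix.of fun i j => b.repr (Pi.single j 1) i
  have hPW : P * W = 1 := by
    ext i k
    rw [Matrix.mul_apply, Matrix.one_apply]
    have h1 := congrFun (b.sum_repr (Pi.single k 1)) i
    rw [Finset.sum_apply, Pi.single_apply] at h1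
    rw [← h1]
    refine Finset.sum_congr rfl fun j _ => ?_
    change b j i * b.repr (Pi.single k 1) j = b.repr (Pi.single k 1) j * b j i
    ring
  have hWP : W * P = 1 := mul_eq_one_comm.1 hPW
  have hMP : M * P = P * Matrix.diagonal l := by
    ext i k
    rw [Matrix.mul_diagonal, Matrix.mul_apply]
    have h1 := congrFun (hl k) i
    change (Matrix.toLin' M (b k)) i = l k • b k i at h1
    rw [Matrix.toLin'_apply] at h1
    have h2 : M.mulVec (b k) i = ∑ j, M i j * b k j := rfl
    rw [h2] at h1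
    change ∑ j, M i j * b k j = b k i * l k
    rw [h1, smul_eq_mul, mul_comm]
  refine ⟨W, P, l, hWP, hPW, ?_, hlm⟩
  calc W * M = W * M * (P * W) := by rw [hPW, mul_one]
    _ = W * (M * P) * W := by simp only [mul_assoc]
    _ = (W * P) * Matrix.diagonal l * W := by rw [hMP]; simp only [mul_assoc]
    _ = Matrix.diagonal l * W := by rw [hWP, one_mul]

section

variable {K : Type*} [Field K] [Infinite K] {n : ℕ} {l : Fin n → K}

theorem low_of_totalDegree {R : Type*} [CommRing R] {p : MvPolynomial (Fin n) R} {k : ℕ}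
    (h : p.totalDegree < k) : Low k p := fun d hd => by
  by_contra hcon
  have := le_totalDegree (mem_support_iff.2 hcon)
  rw [Finsupp.degree_eq_sum] at hd
  rw [Finsupp.sum_fintype _ _ (fun i => rfl)] at this
  omega

/-- The local trace formula, at the level of polynomials. -/
theorem local_trace {m : ℕ} (hm : m ≠ 0) (hl : ∀ i, l i ^ m = 1)
    (f : Fin n → MvPolynomial (Fin n) K) (hf : ∀ i, scal l (f i) = l i • f i)
    (M0 : ℕ) (J : Ideal (MvPolynomial (Fin n) K))
    (hJ : ∀ k, M0 ≤ k → J = Ideal.span (Set.range f) ⊔ (idealOfVars (Fin n) K) ^ k)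
    {Q : Type*} [CommRing Q] [Algebra K Q]
    (π : MvPolynomial (Fin n) K →ₐ[K] Q) (hπ : Function.Surjective π)
    (hker : ∀ p, π p = 0 ↔ p ∈ J) (T : Q →ₗ[K] Q) (hT : ∀ p, T (π p) = π (scal l p)) :
    LinearMap.trace K Q T = (Module.finrank K (MvPolynomial (Fin n) K ⧸ (J ⊔ Iy l)) : K) := by
  classical
  set mm := idealOfVars (Fin n) K with hmm
  -- choice of N
  set c : ℕ := M0 + 1 + ∑ i, ((f i).totalDegree + 1) with hc
  set N : ℕ := m * c + 1 with hN
  have hcN : c ≤ m * c := Nat.le_mul_of_pos_left _ (Nat.pos_of_ne_zero hm)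
  have hN2 : 2 ≤ N := by omega
  have hNM : M0 + 1 ≤ N := by omega
  have hNf : ∀ i, (f i).totalDegree < N := by
    intro i
    have h1 : (f i).totalDegree + 1 ≤ ∑ i, ((f i).totalDegree + 1) :=
      Finset.single_le_sum (f := fun i => (f i).totalDegree + 1) (fun _ _ => Nat.zero_le _)
        (Finset.mem_univ i)
    omega
  set F : Fin n → MvPolynomial (Fin n) K := fun i => f i + X i ^ N with hF
  have hFlead : IsLead N F := by
    intro i
    have : F i - X i ^ N = f i := by rw [hF]; ring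
    rw [this]
    exact low_of_totalDegree (hNf i)
  have hFg : ∀ i, scal l (F i) = l i • F i := by
    intro i
    rw [hF]
    change scal l (f i + X i ^ N) = l i • (f i + X i ^ N)
    rw [map_add, hf, map_pow, scal_X, smul_add, smul_pow]
    congr 2
    rw [hN, pow_succ, pow_mul, hl, one_pow, one_mul]
  have hXm : ∀ i, (X i : MvPolynomial (Fin n) K) ∈ mm := fun i => Ideal.subset_span ⟨i, rfl⟩
  have hXN : ∀ i k, k ≤ N → (X i : MvPolynomial (Fin n) K) ^ N ∈ mm ^ k := fun i k hk =>
    Ideal.pow_le_pow_right hk (Ideal.pow_mem_pow (hXm i) N)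
  have hJF : ∀ k, M0 ≤ k → k ≤ N → J = Ideal.span (Set.range F) ⊔ mm ^ k := by
    intro k hk hkN
    rw [hJ k hk]
    apply le_antisymm
    · refine sup_le ?_ le_sup_right
      rw [Ideal.span_le]
      rintro _ ⟨i, rfl⟩
      have : f i = F i + -(X i ^ N) := by rw [hF]; ring
      rw [this]
      exact Submodule.add_mem_sup (Ideal.subset_span ⟨i, rfl⟩) (neg_mem (hXN i k hkN))
    · refine sup_le ?_ le_sup_right
      rw [Ideal.span_le]
      rintro _ ⟨i, rfl⟩
      exact Submodule.add_mem_sup (Ideal.subset_span ⟨i, rfl⟩) (hXN i k hkN)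
  have hN0 : 0 < N := by omega
  have hJ0 := hJF M0 le_rfl (by omega)
  have hJ1 := hJF (M0 + 1) (by omega) hNM
  set mk := Ideal.Quotient.mk (Ideal.span (Set.range F)) with hmk
  -- the idempotent ideal
  set n1 := mm.map mk with hn1
  have hstep : n1 ^ M0 ≤ n1 ^ (M0 + 1) := by
    rw [← Ideal.map_pow, ← Ideal.map_pow, Ideal.map_le_iff_le_comap]
    intro p hp
    have h1 : p ∈ Ideal.span (Set.range F) ⊔ mm ^ (M0 + 1) := by
      rw [← hJ1, hJ0]
      exact (le_sup_right : mm ^ M0 ≤ _) hp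
    obtain ⟨a, ha, b, hb, rfl⟩ := Submodule.mem_sup.1 h1
    rw [Ideal.mem_comap, map_add, Ideal.Quotient.eq_zero_iff_mem.2 ha, zero_add]
    exact Ideal.mem_map_of_mem _ hb
  have hstep' : ∀ j, n1 ^ M0 ≤ n1 ^ (M0 + j) := by
    intro j
    induction j with
    | zero => exact le_rfl
    | succ j ih =>
      refine ih.trans ?_
      calc n1 ^ (M0 + j) = n1 ^ M0 * n1 ^ j := Ideal.IsTwoSided.pow_add _ _
        _ ≤ n1 ^ (M0 + 1) * n1 ^ j := Ideal.mul_mono_left hstep
        _ = n1 ^ (M0 + (j + 1)) := by rw [← Ideal.IsTwoSided.pow_add]; congr 1; ring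
  have hidem : IsIdempotentElem (n1 ^ M0) := by
    refine le_antisymm Ideal.mul_le_right ?_
    rw [← Ideal.IsTwoSided.pow_add]
    exact hstep' M0
  have hfg : (n1 ^ M0).FG := by
    have h1 : mm.FG := idealOfVars_fg _ _
    exact Ideal.FG.pow (h1.map mk)
  obtain ⟨e, he, hen⟩ := (Ideal.isIdempotentElem_iff_of_fg _ hfg).1 hidem
  obtain ⟨ε, hε⟩ := Ideal.Quotient.mk_surjective e
  have heJ : e ∈ n1 ^ M0 := by rw [hen]; exact Ideal.subset_span rfl
  have hmul : ∀ d ∈ n1 ^ M0, e * d = d := by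
    intro d hd
    rw [hen, Submodule.mem_span_singleton] at hd
    obtain ⟨c, rfl⟩ := hd
    rw [smul_eq_mul, mul_left_comm, he.eq]
  have hmemn : ∀ p, p ∈ J ↔ mk p ∈ n1 ^ M0 := by
    intro p
    rw [hJ0, hn1, ← Ideal.map_pow]
    constructor
    · intro hp
      obtain ⟨a, ha, b, hb, rfl⟩ := Submodule.mem_sup.1 hp
      rw [map_add, Ideal.Quotient.eq_zero_iff_mem.2 ha, zero_add]
      exact Ideal.mem_map_of_mem _ hb
    · intro hp
      rw [Ideal.mem_map_iff_of_surjective _ Ideal.Quotient.mk_surjective] at hp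
      obtain ⟨q, hq, hqp⟩ := hp
      rw [Ideal.Quotient.eq] at hqp
      have : p = -(q - p) + q := by ring
      rw [this]
      exact Submodule.add_mem_sup (neg_mem hqp) hq
  have hεJ : ε ∈ J := by
    rw [hmemn, hmk, hε]; exact heJ
  have hFJ : Ideal.span (Set.range F) ≤ J := by rw [hJ0]; exact le_sup_left
  have hfinD : Module.Finite K (MvPolynomial (Fin n) K ⧸ Ideal.span (Set.range F)) :=
    finite_quot hN0 hFlead
  have hfinE : Module.Finite K (MvPolynomial (Fin n) K ⧸ (Ideal.span (Set.range F) ⊔ Iy l)) :=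
    finite_quot_of_le hN0 hFlead le_sup_left
  have hfinQ' : Module.Finite K (MvPolynomial (Fin n) K ⧸ (J ⊔ Iy l)) :=
    finite_quot_of_le hN0 hFlead (hFJ.trans le_sup_left)
  -- the map `D → Q`
  let q : (MvPolynomial (Fin n) K ⧸ Ideal.span (Set.range F)) →ₐ[K] Q :=
    Ideal.Quotient.liftₐ _ π (fun a ha => (hker a).2 (hFJ ha))
  have hq : ∀ p, q (mk p) = π p := fun p => rfl
  have hqs : Function.Surjective q := by
    intro x
    obtain ⟨p, rfl⟩ := hπ x
    exact ⟨mk p, rfl⟩
  have hfinQ : Module.Finite K Q := Module.Finite.of_surjective q.toLinearMap hqs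
  have h1 := star hFg hN2 hFlead (1 - ε)
  have h2 : LinearMap.trace K _ (LinearMap.mulLeft K (Ideal.Quotient.mk
      (Ideal.span (Set.range F)) (1 - ε)) ∘ₗ (gq hFg).toLinearMap) = LinearMap.trace K Q T := by
    refine trace_retract q.toLinearMap hqs _ ?_ ?_ _ _ ?_
    · intro d hd
      obtain ⟨p, rfl⟩ := Ideal.Quotient.mk_surjective d
      have h3 : p ∈ J := (hker p).1 hd
      rw [hmemn] at h3
      rw [LinearMap.mulLeft_apply, map_sub, map_one, hε, sub_mul, one_mul]
      rw [hmk] at h3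
      rw [hmul _ h3, sub_self]
    · intro d
      obtain ⟨p, rfl⟩ := Ideal.Quotient.mk_surjective d
      change π ((1 - ε) * p) = π p
      rw [map_mul, map_sub, map_one, (hker ε).2 hεJ, sub_zero, one_mul]
    · intro d
      obtain ⟨p, rfl⟩ := Ideal.Quotient.mk_surjective d
      exact hT p
  have hle : Ideal.span (Set.range F) ⊔ Iy l ≤ J ⊔ Iy l := sup_le_sup_right hFJ _
  have h3 : LinearMap.trace K _ (LinearMap.mulLeft K (Ideal.Quotient.mk
      (Ideal.span (Set.range F) ⊔ Iy l) (1 - ε)) ∘ₗ LinearMap.id) =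
      LinearMap.trace K (MvPolynomial (Fin n) K ⧸ (J ⊔ Iy l)) LinearMap.id := by
    refine trace_retract (Ideal.Quotient.factorₐ K hle).toLinearMap
      (Ideal.Quotient.factor_surjective hle) _ ?_ ?_ _ _ ?_
    · intro d hd
      obtain ⟨p, rfl⟩ := Ideal.Quotient.mk_surjective d
      have h4 : p ∈ J ⊔ Iy l := Ideal.Quotient.eq_zero_iff_mem.1 hd
      obtain ⟨a, ha, b, hb, rfl⟩ := Submodule.mem_sup.1 h4
      change Ideal.Quotient.mk _ ((1 - ε) * (a + b)) = 0
      rw [Ideal.Quotient.eq_zero_iff_mem, mul_add]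
      refine Submodule.add_mem_sup ?_ (Ideal.mul_mem_left _ _ hb)
      rw [← Ideal.Quotient.eq_zero_iff_mem, map_mul, map_sub, map_one, hε, sub_mul, one_mul]
      have h5 := (hmemn a).1 ha
      rw [hmk] at h5
      rw [hmul _ h5, sub_self]
    · intro d
      obtain ⟨p, rfl⟩ := Ideal.Quotient.mk_surjective d
      change Ideal.Quotient.mk (J ⊔ Iy l) ((1 - ε) * p) = Ideal.Quotient.mk (J ⊔ Iy l) p
      rw [Ideal.Quotient.eq]
      have : (1 - ε) * p - p = -(p * ε) := by ring
      rw [this]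
      exact neg_mem (Ideal.mul_mem_left _ _ ((le_sup_left : J ≤ J ⊔ Iy l) hεJ))
    · intro d
      rfl
  rw [LinearMap.comp_id, LinearMap.trace_id] at h3
  rw [← h2, h1, h3]

end

end Pool.Agent.W627.EqDeg
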